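import Pool.Agent.Lib.MP_a17342_co.Red.Core

/-!
# Reductions for RAC drawings: the theorem for all subcubic graphs follows from the core cases
-/

set_option autoImplicit false

namespace Pool.Agent.Lib.MP_a17342_co.Red

theorem core_step (hU : CoreU) (hR : CoreR) {V : Type} [Finite V] (G : SimpleGraph V)
    (hG : Subcubic G) (hcut : NoCut G) (hV : 4 ≤ Nat.card V)
    (hnt : ∀ a b c, G.Adj a b → G.Adj a c → G.Adj b c → ∀ T : Set V, T = {a, b, c} →
      (∀ x ∈ T, ∀ x' ∈ T, ∀ y, y ∉ T → G.Adj x y → G.Adj x' y → x = x') →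
      ∀ a' b', a' ∉ T → b' ∉ T → G.Adj a a' → G.Adj b b' → False) : Claim G := by
  classical
  have hdeg2 : ∀ v, 2 ≤ (G.neighborSet v).ncard := by
    intro v
    obtain ⟨u, hu⟩ : ∃ u, u ≠ v := by
      by_contra h
      push Not at h
      have h1 : Nat.card V ≤ 1 := by
        have : Subsingleton V := ⟨fun x y => (h x).trans (h y).symm⟩
        exact Finite.card_le_one_iff_subsingleton.2 this
      omega
    obtain ⟨a, ha, b, hb, hab, hne⟩ := hcut {v} v rfl u hu
    obtain ⟨a', ha', b', hb', hab', hne'⟩ := hcut {v} v rfl b hb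
    rw [Set.mem_singleton_iff] at ha ha'
    subst ha
    subst ha'
    have h1 : b' ≠ b := fun h => hne' ⟨rfl, h⟩
    have h2 : ({b', b} : Set V) ⊆ G.neighborSet a' := by
      rintro x (rfl | rfl)
      · exact hab'
      · exact hab
    have h3 := Set.ncard_le_ncard h2 (Set.toFinite _)
    rwa [Set.ncard_pair h1] at h3
  have hconn : ∀ S : Set V, S.Nonempty → (∀ v ∈ S, ∀ w, G.Adj v w → w ∈ S) → ∀ v, v ∈ S := by
    rintro S ⟨u, hu⟩ hS v
    by_contra hv
    obtain ⟨a, ha, b, hb, hab, -⟩ := hcut S u hu v hv
    exact hb (hS a ha b hab)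
  have facts : ∀ n : V → V, (∀ v, n (n v) = v) → (∀ v, n v ≠ v → G.Adj v (n v)) →
      (∀ v, n v = v → (G.neighborSet v).ncard ≤ 2) →
      ∃ C0 : SimpleGraph V, (∀ x y, C0.Adj x y ↔ G.Adj x y ∧ y ≠ n x) ∧
        (∀ x, n x = x → (C0.neighborSet x).ncard = 2) ∧
        (∀ x, n x ≠ x → (C0.neighborSet x).ncard + 1 = (G.neighborSet x).ncard) ∧
        (∀ x, (C0.neighborSet x).ncard = 1 ∨ (C0.neighborSet x).ncard = 2) ∧
        (∀ a b c, C0.Adj a b → C0.Adj b c → C0.Adj c a → False) ∧
        (∀ S : Set V, S.Nonempty → (∀ v ∈ S, n v ∈ S) →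
          (∀ v ∈ S, ∀ w, C0.Adj v w → w ∈ S) → ∀ v, v ∈ S) := by
    intro n hn hnG hnf
    let C0 : SimpleGraph V :=
      { Adj := fun x y => G.Adj x y ∧ y ≠ n x
        symm := by
          constructor
          rintro x y ⟨h1, h2⟩
          refine ⟨h1.symm, ?_⟩
          rintro rfl
          exact h2 (hn y).symm
        loopless := ⟨fun x h => h.1.ne rfl⟩ }
    have hC0 : ∀ x y, C0.Adj x y ↔ G.Adj x y ∧ y ≠ n x := fun x y => Iff.rfl
    have f1 : ∀ x, n x = x → (C0.neighborSet x).ncard = 2 := by
      intro x hx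
      have h1 : C0.neighborSet x = G.neighborSet x := by
        ext y
        simp only [SimpleGraph.mem_neighborSet, hC0]
        constructor
        · exact fun h => h.1
        · intro h
          refine ⟨h, ?_⟩
          rw [hx]
          exact h.ne.symm
      rw [h1]
      have h2 := hnf x hx
      have h3 := hdeg2 x
      omega
    have f2 : ∀ x, n x ≠ x → (C0.neighborSet x).ncard + 1 = (G.neighborSet x).ncard := by
      intro x hx
      have h1 : C0.neighborSet x = G.neighborSet x \ {n x} := by
        ext y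
        simp only [SimpleGraph.mem_neighborSet, hC0, Set.mem_sdiff, Set.mem_singleton_iff]
      rw [h1]
      exact Set.ncard_sdiff_singleton_add_one (hnG x hx) (Set.toFinite _)
    have f3 : ∀ x, (C0.neighborSet x).ncard = 1 ∨ (C0.neighborSet x).ncard = 2 := by
      intro x
      by_cases hx : n x = x
      · exact Or.inr (f1 x hx)
      · have h1 := f2 x hx
        have h2 := hG x
        have h3 := hdeg2 x
        omega
    refine ⟨C0, hC0, f1, f2, f3, ?_, ?_⟩
    · intro a b c hab hbc hca
      -- outer neighbours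
      have aux : ∀ x y z w, C0.Adj x y → C0.Adj x z → y ≠ z → w ≠ y → w ≠ z → G.Adj x w →
          w = n x := by
        intro x y z w hxy hxz hyz hwy hwz hxw
        by_contra hcon
        have h1 : ({w, y, z} : Set V) ⊆ C0.neighborSet x := by
          rintro t (rfl | rfl | rfl)
          · exact ⟨hxw, hcon⟩
          · exact hxy
          · exact hxz
        have h2 := Set.ncard_le_ncard h1 (Set.toFinite _)
        rw [Set.ncard_eq_three.2 ⟨w, y, z, hwy, hwz, hyz, rfl⟩] at h2
        have h3 := f3 x
        omega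
      set T : Set V := {a, b, c} with hT
      have haT : a ∈ T := by rw [hT]; simp
      have hbT : b ∈ T := by rw [hT]; simp
      have hcT : c ∈ T := by rw [hT]; simp
      have hmem : ∀ x, x ∈ T → x = a ∨ x = b ∨ x = c := by
        intro x hx
        rw [hT] at hx
        simpa using hx
      have hout : ∀ x ∈ T, ∀ y, y ∉ T → G.Adj x y → y = n x := by
        intro x hx y hy hxy
        have hya : y ≠ a := fun h => hy (h ▸ haT)
        have hyb : y ≠ b := fun h => hy (h ▸ hbT)
        have hyc : y ≠ c := fun h => hy (h ▸ hcT)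
        rcases hmem x hx with h | h | h
        · rw [h] at hxy ⊢
          exact aux a b c y hab hca.symm hbc.ne hyb hyc hxy
        · rw [h] at hxy ⊢
          exact aux b a c y hab.symm hbc hca.ne.symm hya hyc hxy
        · rw [h] at hxy ⊢
          exact aux c a b y hca hbc.symm hab.ne hya hyb hxy
      have hinj : ∀ x x', n x = n x' → x = x' := by
        intro x x' h
        rw [← hn x, h, hn]
      have hdist : ∀ x ∈ T, ∀ x' ∈ T, ∀ y, y ∉ T → G.Adj x y → G.Adj x' y → x = x' := by
        intro x hx x' hx' y hy hxy hxy'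
        exact hinj x x' ((hout x hx y hy hxy).symm.trans (hout x' hx' y hy hxy'))
      -- a vertex outside
      obtain ⟨v, hv⟩ : ∃ v, v ∉ T := by
        by_contra h
        push Not at h
        have h1 : T = Set.univ := Set.eq_univ_of_forall h
        have h2 : T.ncard ≤ 3 := by
          rw [hT]
          have h3 := Set.ncard_insert_le a ({b, c} : Set V)
          have h4 := Set.ncard_insert_le b ({c} : Set V)
          rw [Set.ncard_singleton] at h4
          omega
        rw [h1, Set.ncard_univ] at h2
        omega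
      obtain ⟨a1, ha1, b1, hb1, hab1, -⟩ := hcut T a haT v hv
      obtain ⟨a2, ha2, b2, hb2, hab2, hne⟩ := hcut T a1 ha1 b1 hb1
      have ha12 : a1 ≠ a2 := by
        intro h
        apply hne
        refine ⟨h.symm, ?_⟩
        rw [hout a2 ha2 b2 hb2 hab2, hout a1 ha1 b1 hb1 hab1, h]
      have hab' := hab.1
      have hbc' := hbc.1
      have hca' := hca.1
      rcases hmem a1 ha1 with h1 | h1 | h1 <;> rcases hmem a2 ha2 with h2 | h2 | h2 <;>
        rw [h1] at hab1 ha12 <;> rw [h2] at hab2 ha12
      · exact ha12 rfl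
      · exact hnt a b c hab' hca'.symm hbc' T hT hdist b1 b2 hb1 hb2 hab1 hab2
      · exact hnt a c b hca'.symm hab' hbc'.symm T (by rw [hT]; ext x; simp; tauto) hdist b1 b2
          hb1 hb2 hab1 hab2
      · exact hnt b a c hab'.symm hbc' hca'.symm T (by rw [hT]; ext x; simp; tauto) hdist b1 b2
          hb1 hb2 hab1 hab2
      · exact ha12 rfl
      · exact hnt b c a hbc' hab'.symm hca' T (by rw [hT]; ext x; simp; tauto) hdist b1 b2
          hb1 hb2 hab1 hab2
      · exact hnt c a b hca' hbc'.symm hab' T (by rw [hT]; ext x; simp; tauto) hdist b1 b2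
          hb1 hb2 hab1 hab2
      · exact hnt c b a hbc'.symm hca' hab'.symm T (by rw [hT]; ext x; simp; tauto) hdist b1 b2
          hb1 hb2 hab1 hab2
      · exact ha12 rfl
    · intro S hS hSn hSC v
      apply hconn S hS
      intro x hx y hxy
      by_cases h : y = n x
      · rw [h]
        exact hSn x hx
      · exact hSC x hx y ⟨hxy, h⟩
  have rooted : ∀ r, (G.neighborSet r).ncard ≤ 2 → ∃ p, IsRAC G p ∧ Exposed p r := by
    intro r hr
    obtain ⟨n, hn, hnG, hnf, hnR⟩ := exists_matching G hG hcut {r} (by simp) (by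
      intro x hx
      rw [Set.mem_singleton_iff] at hx
      rw [hx]
      exact hr)
    have hnr := hnR r rfl
    obtain ⟨C0, hC0, f1, f2, f3, f4, f5⟩ := facts n hn hnG hnf
    have hnC : ∀ v, ¬ C0.Adj v (n v) := fun v h => ((hC0 _ _).1 h).2 rfl
    have hexp : ∀ p : V → ℝ × ℝ, (∀ w, w ≠ r → (p r).2 < (p w).2) → Exposed p r := by
      intro p hp
      refine ⟨(0, 1), by simp, ?_⟩
      intro v hv
      simp only [dot]
      have := hp v hv
      linarith
    by_cases hall : ∀ v, v ≠ r → n v ≠ v ∧ (G.neighborSet v).ncard = 3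
    · have h2 : ∀ v, (C0.neighborSet v).ncard = 2 := by
        intro v
        by_cases hv : v = r
        · rw [hv]
          exact f1 r hnr
        · have h1 := f2 v (hall v hv).1
          rw [(hall v hv).2] at h1
          omega
      obtain ⟨σ, hcore, hσ⟩ := core_of_factor C0 h2 f4 n hn hnC f5
      obtain ⟨p, hp, hlow⟩ := hR V σ n r hcore (by
        intro w
        constructor
        · intro h
          by_contra hw
          exact (hall w hw).1 h
        · rintro rfl
          exact hnr)
      refine ⟨p, isRAC_mono ?_ hp, hexp p hlow⟩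
      intro x y hxy
      refine ⟨hxy.ne, ?_⟩
      by_cases h : y = n x
      · exact Or.inl h
      · rcases (hσ x y).1 ((hC0 x y).2 ⟨hxy, h⟩) with h' | h'
        · exact Or.inr (Or.inr (Or.inl h'))
        · exact Or.inr (Or.inr (Or.inr h'))
    · push Not at hall
      obtain ⟨s, hs1, hs2⟩ := hall
      have hs : n s = s ∨ (C0.neighborSet s).ncard = 1 := by
        by_cases h : n s = s
        · exact Or.inl h
        · right
          have h1 := hs2 h
          have h2 := f2 s h
          have h3 := hG s
          have h4 := hdeg2 s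
          omega
      obtain ⟨σ, μ, hcore, hfix, hadj⟩ := double C0 n r hn hnC hnr f3 f1 f4 f5 s hs1 hs
      obtain ⟨p, hp, hlow⟩ := hR _ σ μ (Sum.inl (r, false)) hcore hfix
      refine ⟨fun v => p (Sum.inl (v, false)), ?_, ?_⟩
      · refine isRAC_comp hp (fun v => Sum.inl (v, false)) ?_ ?_
        · intro x y h
          simpa using h
        · intro x y hxy
          apply hadj
          by_cases h : y = n x
          · exact Or.inr ⟨h, hxy.ne⟩
          · exact Or.inl ((hC0 x y).2 ⟨hxy, h⟩)
      · apply hexp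
        intro w hw
        apply hlow
        simpa using hw
  constructor
  · by_cases hr : ∃ r, (G.neighborSet r).ncard ≤ 2
    · obtain ⟨r, hr⟩ := hr
      obtain ⟨p, hp, -⟩ := rooted r hr
      exact ⟨p, hp⟩
    · push Not at hr
      obtain ⟨n, hn, hnG, hnf, -⟩ := exists_matching G hG hcut ∅ (by simp) (by simp)
      obtain ⟨C0, hC0, f1, f2, f3, f4, f5⟩ := facts n hn hnG hnf
      have hnC : ∀ v, ¬ C0.Adj v (n v) := fun v h => ((hC0 _ _).1 h).2 rfl
      have hnv : ∀ v, n v ≠ v := by
        intro v h
        have h1 := hnf v h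
        have h2 := hr v
        omega
      have h2 : ∀ v, (C0.neighborSet v).ncard = 2 := by
        intro v
        have h1 := f2 v (hnv v)
        have h2 := hr v
        have h3 := hG v
        omega
      obtain ⟨σ, hcore, hσ⟩ := core_of_factor C0 h2 f4 n hn hnC f5
      obtain ⟨p, hp⟩ := hU V σ n hcore hnv
      refine ⟨p, isRAC_mono ?_ hp⟩
      intro x y hxy
      refine ⟨hxy.ne, ?_⟩
      by_cases h : y = n x
      · exact Or.inl h
      · rcases (hσ x y).1 ((hC0 x y).2 ⟨hxy, h⟩) with h' | h'
        · exact Or.inr (Or.inr (Or.inl h'))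
        · exact Or.inr (Or.inr (Or.inr h'))
  · exact rooted

/-- at most three vertices -/
theorem small_claim {V : Type} [Finite V] (G : SimpleGraph V) (hV : Nat.card V ≤ 3) :
    Claim G := by
  classical
  have : Fintype V := Fintype.ofFinite V
  have key : ∀ f : V → ℝ, Function.Injective f → IsRAC G (fun v => (f v, f v ^ 2)) := by
    intro f hf
    refine ⟨?_, ?_, ?_⟩
    · intro x y h
      exact hf (congrArg Prod.fst h)
    · intro a b c hab hca hcb hmem
      obtain ⟨t, h0, h1, ht⟩ := mem_seg hmem
      have h2 := congrArg Prod.fst ht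
      have h3 := congrArg Prod.snd ht
      simp only [Prod.fst_add, Prod.snd_add, Prod.smul_fst, Prod.smul_snd, Prod.fst_sub,
        Prod.snd_sub, smul_eq_mul] at h2 h3
      have h4 : t * (1 - t) * (f b - f a) ^ 2 = 0 := by
        rw [h2] at h3
        linear_combination (-1 : ℝ) * h3
      have h5 : f b - f a ≠ 0 := sub_ne_zero.2 (hf.ne hab.ne.symm)
      rcases mul_eq_zero.1 h4 with h6 | h6
      · rcases mul_eq_zero.1 h6 with h7 | h7
        · rw [h7] at h2
          exact hca (hf (by linarith))
        · have : t = 1 := by linarith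
          rw [this] at h2
          exact hcb (hf (by linarith))
      · exact h5 (pow_eq_zero_iff (two_ne_zero)|>.1 h6)
    · intro a b c d hab hcd hac had hbc hbd _
      exfalso
      have h1 : ({a, b, c, d} : Finset V).card = 4 := by
        rw [Finset.card_insert_of_notMem, Finset.card_insert_of_notMem,
          Finset.card_insert_of_notMem, Finset.card_singleton]
        · simpa using hcd.ne
        · simp only [Finset.mem_insert, Finset.mem_singleton, not_or]
          exact ⟨hbc, hbd⟩
        · simp only [Finset.mem_insert, Finset.mem_singleton, not_or]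
          exact ⟨hab.ne, hac, had⟩
      have h2 := Finset.card_le_univ ({a, b, c, d} : Finset V)
      rw [Nat.card_eq_fintype_card] at hV
      omega
  let e : V → ℕ := fun v => (Fintype.equivFin V v : ℕ)
  have he : Function.Injective e := by
    intro x y h
    exact (Fintype.equivFin V).injective (Fin.ext h)
  constructor
  · refine ⟨_, key (fun v => (e v : ℝ)) (fun x y h => he ?_)⟩
    have h' : (e x : ℝ) = (e y : ℝ) := h
    exact_mod_cast h'
  · intro r _
    let f : V → ℝ := fun v => if v = r then 0 else (e v : ℝ) + 1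
    have hfr : f r = 0 := if_pos rfl
    have hfv : ∀ v, v ≠ r → f v = (e v : ℝ) + 1 := fun v hv => if_neg hv
    have hpos : ∀ v, v ≠ r → 0 < f v := by
      intro v hv
      rw [hfv v hv]
      positivity
    have hf : Function.Injective f := by
      intro x y h
      by_cases hx : x = r
      · by_cases hy : y = r
        · rw [hx, hy]
        · rw [hx, hfr] at h
          exact absurd h (hpos y hy).ne
      · by_cases hy : y = r
        · rw [hy, hfr] at h
          exact absurd h.symm (hpos x hx).ne
        · rw [hfv x hx, hfv y hy] at h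
          exact he (by exact_mod_cast add_right_cancel h)
    refine ⟨_, key f hf, (1, 0), by simp, ?_⟩
    intro v hv
    simp only [dot, hfr]
    have := hpos v hv
    linarith

theorem cut_claim {V : Type} [Finite V] (G : SimpleGraph V) (hG : Subcubic G)
    (IH : ∀ (W : Type) [Finite W] (H : SimpleGraph W), Nat.card W < Nat.card V → Subcubic H →
      Claim H) (A : Set V) (u v : V) (hu : u ∈ A) (hv : v ∉ A)
    (hcr : ∀ a ∈ A, ∀ b, b ∉ A → G.Adj a b → a = u ∧ b = v) :
    (∃ p, IsRAC G p) ∧ ∀ r ∈ A, (G.neighborSet r).ncard ≤ 2 → ∃ p, IsRAC G p ∧ Exposed p r := by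
  classical
  have hdeg : ∀ (B : Set V) (x : B), ((G.induce B).neighborSet x).ncard ≤
      (G.neighborSet (x : V)).ncard := by
    intro B x
    refine Set.ncard_le_ncard_of_injOn (fun y : B => (y : V)) ?_ ?_ (Set.toFinite _)
    · intro y hy
      exact hy
    · intro y _ z _ h
      exact Subtype.ext h
  have hsub : ∀ B : Set V, Subcubic (G.induce B) := fun B x => (hdeg B x).trans (hG _)
  have hcA : Nat.card A < Nat.card V := by
    have h1 : A ⊂ Set.univ := by
      rw [Set.ssubset_univ_iff]
      intro h
      exact hv (h ▸ Set.mem_univ v)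
    have h2 := Set.ncard_lt_ncard h1
    rwa [Set.ncard_univ] at h2
  have hcB : Nat.card (Aᶜ : Set V) < Nat.card V := by
    have h1 : (Aᶜ : Set V) ⊂ Set.univ := by
      rw [Set.ssubset_univ_iff]
      intro h
      have : u ∈ Aᶜ := h ▸ Set.mem_univ u
      exact this hu
    have h2 := Set.ncard_lt_ncard h1
    rwa [Set.ncard_univ] at h2
  obtain ⟨hA1, hA2⟩ := IH A (G.induce A) hcA (hsub A)
  obtain ⟨hB1, hB2⟩ := IH (Aᶜ : Set V) (G.induce Aᶜ) hcB (hsub _)
  obtain ⟨q, hq, hqe⟩ : ∃ q, IsRAC (G.induce Aᶜ) q ∧ (G.Adj u v → Exposed q ⟨v, hv⟩) := by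
    by_cases huv : G.Adj u v
    · obtain ⟨q, hq, hqe⟩ := hB2 ⟨v, hv⟩ (by
        have h1 : ((G.induce Aᶜ).neighborSet ⟨v, hv⟩).ncard ≤ (G.neighborSet v \ {u}).ncard := by
          refine Set.ncard_le_ncard_of_injOn (fun y : (Aᶜ : Set V) => (y : V)) ?_ ?_
            (Set.toFinite _)
          · intro y hy
            refine ⟨hy, ?_⟩
            intro h
            have h2 : (y : V) = u := h
            exact y.2 (h2 ▸ hu)
          · intro y _ z _ h
            exact Subtype.ext h
        have h2 : (G.neighborSet v \ {u}).ncard + 1 = (G.neighborSet v).ncard :=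
          Set.ncard_sdiff_singleton_add_one huv.symm (Set.toFinite _)
        have h3 := hG v
        omega)
      exact ⟨q, hq, fun _ => hqe⟩
    · obtain ⟨q, hq⟩ := hB1
      exact ⟨q, hq, fun h => absurd h huv⟩
  constructor
  · obtain ⟨p, hp⟩ := hA1
    obtain ⟨P, hP, -⟩ := glue G A u v hu hv hcr p hp q hq hqe (1, 0) (by simp)
    exact ⟨P, hP⟩
  · intro r hr hdr
    obtain ⟨p, hp, d, hd, hexp⟩ := hA2 ⟨r, hr⟩ ((hdeg A ⟨r, hr⟩).trans hdr)
    obtain ⟨P, hP, hPe⟩ := glue G A u v hu hv hcr p hp q hq hqe d hd
    exact ⟨P, hP, d, hd, hPe r hr hexp⟩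

theorem claim_all (hU : CoreU) (hR : CoreR) : ∀ (N : ℕ) (V : Type) [Finite V]
    (G : SimpleGraph V), Nat.card V = N → Subcubic G → Claim G := by
  intro N
  induction N using Nat.strong_induction_on with
  | _ N ih =>
    intro V _ G hN hG
    have IH : ∀ (W : Type) [Finite W] (H : SimpleGraph W), Nat.card W < Nat.card V →
        Subcubic H → Claim H := by
      intro W _ H hW hH
      exact ih (Nat.card W) (hN ▸ hW) W H rfl hH
    by_cases hsmall : Nat.card V ≤ 3
    · exact small_claim G hsmall
    by_cases hcut : NoCut G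
    · by_cases hnt : ∀ a b c, G.Adj a b → G.Adj a c → G.Adj b c → ∀ T : Set V, T = {a, b, c} →
          (∀ x ∈ T, ∀ x' ∈ T, ∀ y, y ∉ T → G.Adj x y → G.Adj x' y → x = x') →
          ∀ a' b', a' ∉ T → b' ∉ T → G.Adj a a' → G.Adj b b' → False
      · exact core_step hU hR G hG hcut (by omega) hnt
      · push Not at hnt
        obtain ⟨a, b, c, hab, hac, hbc, T, hT, h2, a', b', ha', hb', haa, hbb, -⟩ := hnt
        exact triangle_claim G hG hab hac hbc hT h2 ha' hb' haa hbb IH
    · unfold NoCut at hcut
      push Not at hcut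
      obtain ⟨A, u, hu, v, hv, hcr⟩ := hcut
      have h1 := cut_claim G hG IH A u v hu hv hcr
      have h2 := cut_claim G hG IH Aᶜ v u hv (fun h => h hu) (by
        intro a ha b hb hab
        have hb' : b ∈ A := not_not.1 hb
        obtain ⟨h3, h4⟩ := hcr b hb' a ha hab.symm
        exact ⟨h4, h3⟩)
      refine ⟨h1.1, ?_⟩
      intro r hr
      by_cases hrA : r ∈ A
      · exact h1.2 r hrA hr
      · exact h2.2 r hrA hr

/-- Every finite graph of maximum degree at most three has a straight-line RAC drawing, provided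
the core cases hold. -/
theorem rac_of_core (hU : CoreU) (hR : CoreR) (V : Type) [Fintype V] (G : SimpleGraph V)
    (hG : ∀ v, (G.neighborSet v).ncard ≤ 3) : ∃ p : V → ℝ × ℝ, IsRAC G p :=
  (claim_all hU hR (Nat.card V) V G rfl hG).1

end Pool.Agent.Lib.MP_a17342_co.Red
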