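import Pool.Agent.Lib.MP_a17342_co.Red.Triangle

/-!
# Reductions for RAC drawings: contracting a triangle
-/

set_option autoImplicit false

namespace Pool.Agent.Lib.MP_a17342_co.Red

/-- maximum degree at most three -/
def Subcubic {V : Type*} (G : SimpleGraph V) : Prop := ∀ v, (G.neighborSet v).ncard ≤ 3

/-- the statement proved by induction -/
def Claim {V : Type*} (G : SimpleGraph V) : Prop :=
  (∃ p, IsRAC G p) ∧ ∀ r, (G.neighborSet r).ncard ≤ 2 → ∃ p, IsRAC G p ∧ Exposed p r

/-- image of a graph -/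
def cG {V W : Type*} (G : SimpleGraph V) (π : V → W) : SimpleGraph W where
  Adj x y := x ≠ y ∧ ∃ x0 y0, π x0 = x ∧ π y0 = y ∧ G.Adj x0 y0
  symm := by
    constructor
    rintro x y ⟨h1, x0, y0, h2, h3, h4⟩
    exact ⟨h1.symm, y0, x0, h3, h2, h4.symm⟩
  loopless := ⟨fun x h => h.1 rfl⟩

theorem collapsed_of {V W : Type*} (G : SimpleGraph V) (π : V → W) (T : Set V) (w0 : W)
    (hπT : ∀ x ∈ T, π x = w0) (hπn : ∀ x, x ∉ T → π x ≠ w0)
    (hinj : ∀ x y, π x = π y → x ∉ T → x = y) {p : W → ℝ × ℝ} (hp : IsRAC (cG G π) p) :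
    Collapsed G T (fun v => p (π v)) (p w0) := by
  have hadj : ∀ x y, G.Adj x y → ¬ (x ∈ T ∧ y ∈ T) → (cG G π).Adj (π x) (π y) := by
    intro x y hxy hT
    refine ⟨?_, x, y, rfl, rfl, hxy⟩
    intro h
    by_cases hx : x ∈ T
    · have hy : y ∉ T := fun h => hT ⟨hx, h⟩
      exact hxy.ne (hinj y x h.symm hy).symm
    · exact hxy.ne (hinj x y h hx)
  refine ⟨?_, ?_, ?_, ?_, ?_⟩
  · intro x hx
    simp only [hπT x hx]
  · intro x hx h
    exact hπn x hx (hp.1 h)
  · intro x y h hx
    exact hinj x y (hp.1 h) hx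
  · intro a b c hab hT hmem
    by_contra hcon
    push Not at hcon
    exact hp.2.1 (π a) (π b) (π c) (hadj a b hab hT) (fun h => hcon.1 (by simp only [h]))
      (fun h => hcon.2 (by simp only [h])) hmem
  · intro a b c d hab hcd hT hT' h1 h2 h3 h4 hne
    exact hp.2.2 (π a) (π b) (π c) (π d) (hadj a b hab hT) (hadj c d hcd hT')
      (fun h => h1 (by simp only [h])) (fun h => h2 (by simp only [h]))
      (fun h => h3 (by simp only [h])) (fun h => h4 (by simp only [h])) hne

theorem triangle_claim {V : Type} [Finite V] (G : SimpleGraph V) (hG : Subcubic G) {a b c : V}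
    (hab : G.Adj a b) (hac : G.Adj a c) (hbc : G.Adj b c) {T : Set V} (hT : T = {a, b, c})
    (h2 : ∀ x ∈ T, ∀ x' ∈ T, ∀ y, y ∉ T → G.Adj x y → G.Adj x' y → x = x')
    {a' b' : V} (ha' : a' ∉ T) (hb' : b' ∉ T) (haa : G.Adj a a') (hbb : G.Adj b b')
    (IH : ∀ (W : Type) [Finite W] (H : SimpleGraph W), Nat.card W < Nat.card V → Subcubic H →
      Claim H) : Claim G := by
  classical
  have haT : a ∈ T := by rw [hT]; simp
  have hbT : b ∈ T := by rw [hT]; simp
  have hcT : c ∈ T := by rw [hT]; simp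
  have hmem : ∀ x, x ∈ T → x = a ∨ x = b ∨ x = c := by
    intro x hx
    rw [hT] at hx
    simpa using hx
  let O : V → Set V := fun x => {y | y ∉ T ∧ G.Adj x y}
  -- outer neighbours
  have hO : ∀ x y z, x ∈ T → y ∈ T → z ∈ T → G.Adj x y → G.Adj x z → y ≠ z →
      (O x).ncard + 2 ≤ (G.neighborSet x).ncard := by
    intro x y z hx hy hz hxy hxz hyz
    have h3 : O x ∪ {y, z} ⊆ G.neighborSet x := by
      rintro w (hw | hw)
      · exact hw.2
      · rcases hw with rfl | rfl
        · exact hxy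
        · exact hxz
    have h4 : Disjoint (O x) {y, z} := by
      rw [Set.disjoint_left]
      rintro w hw (rfl | rfl)
      · exact hw.1 hy
      · exact hw.1 hz
    have h5 := Set.ncard_le_ncard h3
    rw [Set.ncard_union_eq h4, Set.ncard_pair hyz] at h5
    exact h5
  have hO' : ∀ x ∈ T, (O x).ncard + 2 ≤ (G.neighborSet x).ncard := by
    intro x hx
    rcases hmem x hx with h | h | h
    · rw [h]
      exact hO a b c haT hbT hcT hab hac hbc.ne
    · rw [h]
      exact hO b a c hbT haT hcT hab.symm hbc hac.ne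
    · rw [h]
      exact hO c a b hcT haT hbT hac.symm hbc.symm hab.ne
  have hO1 : ∀ x ∈ T, (O x).ncard ≤ 1 := by
    intro x hx
    have h3 := hO' x hx
    have h4 := hG x
    omega
  have h1 : ∀ x ∈ T, ∀ y, y ∉ T → ∀ y', y' ∉ T → G.Adj x y → G.Adj x y' → y = y' := by
    intro x hx y hy y' hy' hxy hxy'
    exact (Set.ncard_le_one (Set.toFinite _)).1 (hO1 x hx) y ⟨hy, hxy⟩ y' ⟨hy', hxy'⟩
  -- the contracted graph
  let W := {v : V // v ≠ a ∧ v ≠ b}
  let w0 : W := ⟨c, hac.ne.symm, hbc.ne.symm⟩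
  let π : V → W := fun v => if h : v ≠ a ∧ v ≠ b then ⟨v, h⟩ else w0
  have hπT : ∀ x ∈ T, π x = w0 := by
    intro x hx
    rcases hmem x hx with rfl | rfl | rfl
    · exact dif_neg (fun h => h.1 rfl)
    · exact dif_neg (fun h => h.2 rfl)
    · exact dif_pos _
  have hπ : ∀ x, x ∉ T → ∃ h, π x = ⟨x, h⟩ := by
    intro x hx
    have h3 : x ≠ a ∧ x ≠ b := ⟨fun h => hx (h ▸ haT), fun h => hx (h ▸ hbT)⟩
    exact ⟨h3, dif_pos h3⟩
  have hπn : ∀ x, x ∉ T → π x ≠ w0 := by
    intro x hx h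
    obtain ⟨h3, h4⟩ := hπ x hx
    rw [h4] at h
    have h5 : x = c := congrArg Subtype.val h
    exact hx (h5 ▸ hcT)
  have hinj : ∀ x y, π x = π y → x ∉ T → x = y := by
    intro x y h hx
    obtain ⟨h3, h4⟩ := hπ x hx
    by_cases hy : y ∈ T
    · rw [hπT y hy] at h
      exact absurd h (hπn x hx)
    · obtain ⟨h5, h6⟩ := hπ y hy
      rw [h4, h6] at h
      exact congrArg Subtype.val h
  have hsurj : ∀ w : W, w = w0 ∨ ∃ x, x ∉ T ∧ w = π x := by
    intro w
    by_cases h3 : w.1 = c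
    · left
      exact Subtype.ext h3
    · right
      have h4 : w.1 ∉ T := by
        intro h
        rcases hmem _ h with h | h | h
        · exact w.2.1 h
        · exact w.2.2 h
        · exact h3 h
      obtain ⟨h5, h6⟩ := hπ _ h4
      exact ⟨w.1, h4, by rw [h6]⟩
  have hcard : Nat.card W < Nat.card V := by
    have h3 : Nat.card W = ({v : V | v ≠ a ∧ v ≠ b}).ncard := rfl
    rw [h3]
    have h4 : ({v : V | v ≠ a ∧ v ≠ b}) ⊂ Set.univ := by
      rw [Set.ssubset_univ_iff]
      intro h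
      have : a ∈ ({v : V | v ≠ a ∧ v ≠ b}) := by rw [h]; trivial
      exact this.1 rfl
    have h5 := Set.ncard_lt_ncard h4
    rwa [Set.ncard_univ] at h5
  have hdeg1 : ∀ x, x ∉ T → ((cG G π).neighborSet (π x)).ncard ≤ (G.neighborSet x).ncard := by
    intro x hx
    have h3 : (cG G π).neighborSet (π x) ⊆ π '' G.neighborSet x := by
      rintro y ⟨h4, x0, y0, h5, h6, h7⟩
      have h8 := hinj x x0 h5.symm hx
      subst h8
      exact ⟨y0, h7, h6⟩
    exact (Set.ncard_le_ncard h3 (Set.toFinite _)).trans (Set.ncard_image_le (Set.toFinite _))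
  have hdeg0 : ((cG G π).neighborSet w0).ncard ≤ (O a).ncard + (O b).ncard + (O c).ncard := by
    have h3 : (cG G π).neighborSet w0 ⊆ π '' (O a ∪ O b ∪ O c) := by
      rintro y ⟨h4, x0, y0, h5, h6, h7⟩
      have h8 : x0 ∈ T := by
        by_contra h8
        exact hπn x0 h8 h5
      have h9 : y0 ∉ T := by
        intro h9
        rw [hπT y0 h9] at h6
        exact h4 h6
      refine ⟨y0, ?_, h6⟩
      rcases hmem x0 h8 with h | h | h
      · exact Or.inl (Or.inl ⟨h9, h ▸ h7⟩)
      · exact Or.inl (Or.inr ⟨h9, h ▸ h7⟩)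
      · exact Or.inr ⟨h9, h ▸ h7⟩
    have h4 := (Set.ncard_le_ncard h3 (Set.toFinite _)).trans
      (Set.ncard_image_le (f := π) (Set.toFinite (O a ∪ O b ∪ O c)))
    have h5 := Set.ncard_union_le (O a ∪ O b) (O c)
    have h6 := Set.ncard_union_le (O a) (O b)
    omega
  have hsub : Subcubic (cG G π) := by
    intro w
    rcases hsurj w with h | ⟨x, hx, h⟩
    · rw [h]
      have h3 := hO1 a haT
      have h4 := hO1 b hbT
      have h5 := hO1 c hcT
      omega
    · rw [h]
      exact (hdeg1 x hx).trans (hG x)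
  obtain ⟨⟨p, hp⟩, hroot⟩ := IH W (cG G π) hcard hsub
  constructor
  · exact (triangle_step (collapsed_of G π T w0 hπT hπn hinj hp) hT hab.ne hac.ne hbc.ne h1 h2
      ha' hb' haa hbb).1
  · intro r hr
    have hr' : r ∈ T → ∀ y, y ∉ T → ¬ G.Adj r y := by
      intro hrT y hy hry
      have h3 := hO' r hrT
      have h4 : 0 < (O r).ncard := (Set.ncard_pos (Set.toFinite _)).2 ⟨y, hy, hry⟩
      omega
    have hdegr : ((cG G π).neighborSet (π r)).ncard ≤ 2 := by
      by_cases hrT : r ∈ T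
      · rw [hπT r hrT]
        have h0 : (O r).ncard = 0 := by
          have h3 := hO' r hrT
          omega
        have h3 := hO1 a haT
        have h4 := hO1 b hbT
        have h5 := hO1 c hcT
        rcases hmem r hrT with h | h | h <;> rw [h] at h0 <;> omega
      · exact (hdeg1 r hrT).trans hr
    obtain ⟨p, hp, d, hd, hexp⟩ := hroot (π r) hdegr
    obtain ⟨Q, hQ, hE⟩ := (triangle_step (collapsed_of G π T w0 hπT hπn hinj hp) hT hab.ne hac.ne
      hbc.ne h1 h2 ha' hb' haa hbb).2 r d hr' (by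
        intro v hv
        apply hexp
        intro h
        exact hv (by simp only [h]))
    exact ⟨Q, hQ, d, hd, hE⟩

end Pool.Agent.Lib.MP_a17342_co.Red
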