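import Pool.Agent.Lib.MP_a17342_co.Red.Matching
import Pool.Agent.Lib.MP_a17342_co.Graph

/-!
# Reductions for RAC drawings: the core data and the completion
-/

set_option autoImplicit false

namespace Pool.Agent.Lib.MP_a17342_co.Red

/-- the graph given by a permutation `σ` (the 2-factor) and an involution `μ` (the matching) -/
def coreG {W : Type*} (σ : Equiv.Perm W) (μ : W → W) : SimpleGraph W where
  Adj a b := a ≠ b ∧ (b = μ a ∨ a = μ b ∨ b = σ a ∨ a = σ b)
  symm := by
    constructor
    rintro a b ⟨h1, h2⟩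
    exact ⟨h1.symm, by tauto⟩
  loopless := ⟨fun a h => h.1 rfl⟩

/-- core data: all cycles of `σ` have length at least four, `μ` is an involution, its pairs are
not edges of the cycles, everything is connected -/
structure Core {W : Type*} (σ : Equiv.Perm W) (μ : W → W) : Prop where
  μμ : ∀ w, μ (μ w) = w
  s1 : ∀ w, σ w ≠ w
  s2 : ∀ w, σ (σ w) ≠ w
  s3 : ∀ w, σ (σ (σ w)) ≠ w
  μσ : ∀ w, μ w ≠ σ w
  conn : ∀ S : Set W, S.Nonempty → (∀ v ∈ S, μ v ∈ S ∧ σ v ∈ S) → ∀ v, v ∈ S

/-- what is needed for a cubic core -/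
def CoreU : Prop := ∀ (W : Type) [Finite W] (σ : Equiv.Perm W) (μ : W → W), Core σ μ →
  (∀ w, μ w ≠ w) → ∃ p, IsRAC (coreG σ μ) p

/-- what is needed for a rooted core: the root `r` is strictly lowest -/
def CoreR : Prop := ∀ (W : Type) [Finite W] (σ : Equiv.Perm W) (μ : W → W) (r : W), Core σ μ →
  (∀ w, μ w = w ↔ w = r) → ∃ p, IsRAC (coreG σ μ) p ∧ ∀ w, w ≠ r → (p r).2 < (p w).2

theorem core_of_factor {W : Type*} [Finite W] (C : SimpleGraph W)
    (h2 : ∀ v, (C.neighborSet v).ncard = 2)
    (htri : ∀ a b c, C.Adj a b → C.Adj b c → C.Adj c a → False) (μ : W → W)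
    (hμ : ∀ w, μ (μ w) = w) (hμC : ∀ w, ¬ C.Adj w (μ w))
    (hconn : ∀ S : Set W, S.Nonempty → (∀ v ∈ S, μ v ∈ S) →
      (∀ v ∈ S, ∀ w, C.Adj v w → w ∈ S) → ∀ v, v ∈ S) :
    ∃ σ : Equiv.Perm W, Core σ μ ∧ ∀ a b, C.Adj a b ↔ b = σ a ∨ a = σ b := by
  classical
  have : Fintype W := Fintype.ofFinite W
  obtain ⟨σ, h3, h4, h5, -, -⟩ := exists_orientation C h2
  refine ⟨σ, ⟨hμ, h4, h5, ?_, ?_, ?_⟩, h3⟩
  · intro w hw
    refine htri w (σ w) (σ (σ w)) ((h3 _ _).2 (Or.inl rfl)) ((h3 _ _).2 (Or.inl rfl))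
      ((h3 _ _).2 (Or.inl hw.symm))
  · intro w hw
    exact hμC w ((h3 _ _).2 (Or.inl hw))
  · intro S hS hcl
    apply hconn S hS (fun v hv => (hcl v hv).1)
    intro v hv w hvw
    rcases (h3 _ _).1 hvw with h | h
    · rw [h]
      exact (hcl v hv).2
    · have h6 : Set.MapsTo σ S S := fun v hv => (hcl v hv).2
      have h7 := Equiv.Perm.perm_symm_mapsTo_of_mapsTo σ h6
      have h8 := h7 hv
      rw [h, Equiv.symm_apply_apply] at h8
      exact h8

/-- the 2-factor of the doubled graph -/
def dblC {V : Type*} (C0 : SimpleGraph V) : SimpleGraph ((V × Bool) ⊕ Fin 5) where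
  Adj p q := (∃ x y i, p = Sum.inl (x, i) ∧ q = Sum.inl (y, i) ∧ C0.Adj x y) ∨
    (∃ x i, p = Sum.inl (x, i) ∧ q = Sum.inl (x, !i) ∧ (C0.neighborSet x).ncard = 1) ∨
    (∃ a b : Fin 5, p = Sum.inr a ∧ q = Sum.inr b ∧ (b = a + 1 ∨ a = b + 1))
  symm := by
    constructor
    rintro p q (⟨x, y, i, h1, h2, h3⟩ | ⟨x, i, h1, h2, h3⟩ | ⟨a, b, h1, h2, h3⟩)
    · exact Or.inl ⟨y, x, i, h2, h1, h3.symm⟩
    · exact Or.inr (Or.inl ⟨x, !i, h2, by rw [Bool.not_not]; exact h1, h3⟩)
    · exact Or.inr (Or.inr ⟨b, a, h2, h1, h3.symm⟩)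
  loopless := by
    constructor
    rintro p (⟨x, y, i, h1, h2, h3⟩ | ⟨x, i, h1, h2, h3⟩ | ⟨a, b, h1, h2, h3⟩)
    · rw [h1] at h2
      simp only [Sum.inl.injEq, Prod.mk.injEq, and_true] at h2
      exact h3.ne h2
    · rw [h1] at h2
      simp at h2
    · rw [h1] at h2
      simp only [Sum.inr.injEq] at h2
      subst h2
      clear h1
      revert h3
      revert a
      decide

/-- the matching of the gadget -/
def g5 (a : Fin 5) : Fin 5 :=
  if a = 1 then 3 else if a = 3 then 1 else if a = 2 then 4 else if a = 4 then 2 else 0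

/-- the matching of the doubled graph -/
noncomputable def dblμ {V : Type*} (n : V → V) (r : V) : (V × Bool) ⊕ Fin 5 → (V × Bool) ⊕ Fin 5 := by
  classical
  exact fun p => match p with
  | Sum.inl (x, i) => if x = r then (if i then Sum.inr 0 else Sum.inl (r, false)) else
      if n x = x then Sum.inl (x, !i) else Sum.inl (n x, i)
  | Sum.inr a => if a = 0 then Sum.inl (r, true) else Sum.inr (g5 a)

theorem double {V : Type} [Finite V] (C0 : SimpleGraph V) (n : V → V) (r : V)
    (hn : ∀ v, n (n v) = v) (hnC : ∀ v, ¬ C0.Adj v (n v)) (hr : n r = r)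
    (hC0 : ∀ x, (C0.neighborSet x).ncard = 1 ∨ (C0.neighborSet x).ncard = 2)
    (hfix : ∀ x, n x = x → (C0.neighborSet x).ncard = 2)
    (htri : ∀ a b c, C0.Adj a b → C0.Adj b c → C0.Adj c a → False)
    (hconn : ∀ S : Set V, S.Nonempty → (∀ v ∈ S, n v ∈ S) →
      (∀ v ∈ S, ∀ w, C0.Adj v w → w ∈ S) → ∀ v, v ∈ S)
    (s : V) (hsr : s ≠ r) (hs : n s = s ∨ (C0.neighborSet s).ncard = 1) :
    ∃ (σ : Equiv.Perm ((V × Bool) ⊕ Fin 5)) (μ : (V × Bool) ⊕ Fin 5 → (V × Bool) ⊕ Fin 5),
      Core σ μ ∧ (∀ w, μ w = w ↔ w = Sum.inl (r, false)) ∧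
      ∀ x y, (C0.Adj x y ∨ (y = n x ∧ x ≠ y)) →
        (coreG σ μ).Adj (Sum.inl (x, false)) (Sum.inl (y, false)) := by
  classical
  set C := dblC C0 with hC
  set μ := dblμ n r with hμdef
  have μr0 : μ (Sum.inl (r, false)) = Sum.inl (r, false) := by
    simp [hμdef, dblμ]
  have μr1 : μ (Sum.inl (r, true)) = Sum.inr 0 := by
    simp [hμdef, dblμ]
  have μ0 : μ (Sum.inr 0) = Sum.inl (r, true) := by
    simp [hμdef, dblμ]
  have μa : ∀ a : Fin 5, a ≠ 0 → μ (Sum.inr a) = Sum.inr (g5 a) := by
    intro a ha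
    simp [hμdef, dblμ, ha]
  have μf : ∀ x i, x ≠ r → n x = x → μ (Sum.inl (x, i)) = Sum.inl (x, !i) := by
    intro x i hx hnx
    simp [hμdef, dblμ, hx, hnx]
  have μn : ∀ x i, n x ≠ x → μ (Sum.inl (x, i)) = Sum.inl (n x, i) := by
    intro x i hnx
    have hx : x ≠ r := by
      rintro rfl
      exact hnx hr
    simp [hμdef, dblμ, hx, hnx]
  have hnn : ∀ x, n x ≠ x → n (n x) ≠ n x := by
    intro x hx h
    rw [hn] at h
    exact hx h.symm
  have a1 : ∀ x y i, C0.Adj x y → C.Adj (Sum.inl (x, i)) (Sum.inl (y, i)) := by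
    intro x y i h
    exact Or.inl ⟨x, y, i, rfl, rfl, h⟩
  have a1' : ∀ x y i j, C.Adj (Sum.inl (x, i)) (Sum.inl (y, j)) →
      (i = j ∧ C0.Adj x y) ∨ (j = !i ∧ x = y ∧ (C0.neighborSet x).ncard = 1) := by
    intro x y i j h
    rcases h with ⟨x', y', i', h1, h2, h3⟩ | ⟨x', i', h1, h2, h3⟩ | ⟨a, b, h1, h2, h3⟩
    · simp only [Sum.inl.injEq, Prod.mk.injEq] at h1 h2
      left
      rw [h1.1, h1.2, h2.1, h2.2]
      exact ⟨rfl, h3⟩
    · simp only [Sum.inl.injEq, Prod.mk.injEq] at h1 h2
      right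
      rw [h1.1, h1.2, h2.1, h2.2]
      exact ⟨rfl, rfl, h3⟩
    · exact absurd h1 (by simp)
  have hlr : ∀ p a, ¬ C.Adj (Sum.inl p) (Sum.inr a) := by
    intro p a h
    rcases h with ⟨x', y', i', h1, h2, h3⟩ | ⟨x', i', h1, h2, h3⟩ | ⟨a, b, h1, h2, h3⟩
    · exact absurd h2 (by simp)
    · exact absurd h2 (by simp)
    · exact absurd h1 (by simp)
  have hrr : ∀ a b, C.Adj (Sum.inr a) (Sum.inr b) ↔ (b = a + 1 ∨ a = b + 1) := by
    intro a b
    constructor
    · intro h
      rcases h with ⟨x', y', i', h1, h2, h3⟩ | ⟨x', i', h1, h2, h3⟩ | ⟨a', b', h1, h2, h3⟩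
      · exact absurd h1 (by simp)
      · exact absurd h1 (by simp)
      · simp only [Sum.inr.injEq] at h1 h2
        rw [h1, h2]
        exact h3
    · intro h
      exact Or.inr (Or.inr ⟨a, b, rfl, rfl, h⟩)
  have h2 : ∀ v, (C.neighborSet v).ncard = 2 := by
    rintro (⟨x, i⟩ | a)
    · have hinj : Function.Injective (fun y : V => (Sum.inl (y, i) : (V × Bool) ⊕ Fin 5)) := by
        intro y z h
        simpa using h
      rcases hC0 x with h | h
      · have h3 : C.neighborSet (Sum.inl (x, i)) =
            insert (Sum.inl (x, !i)) ((fun y : V => (Sum.inl (y, i) : (V × Bool) ⊕ Fin 5)) ''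
              C0.neighborSet x) := by
          ext q
          simp only [SimpleGraph.mem_neighborSet, Set.mem_insert_iff, Set.mem_image]
          constructor
          · intro hq
            rcases q with ⟨y, j⟩ | b
            · rcases a1' _ _ _ _ hq with ⟨h4, h5⟩ | ⟨h4, h5, h6⟩
              · right
                exact ⟨y, h5, by rw [h4]⟩
              · left
                rw [h4, h5]
            · exact absurd hq (hlr _ _)
          · rintro (rfl | ⟨y, hy, rfl⟩)
            · exact Or.inr (Or.inl ⟨x, i, rfl, rfl, h⟩)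
            · exact a1 x y i hy
        rw [h3, Set.ncard_insert_of_notMem, Set.ncard_image_of_injective _ hinj, h]
        rintro ⟨y, hy, h4⟩
        simp at h4
      · have h3 : C.neighborSet (Sum.inl (x, i)) =
            ((fun y : V => (Sum.inl (y, i) : (V × Bool) ⊕ Fin 5)) '' C0.neighborSet x) := by
          ext q
          simp only [SimpleGraph.mem_neighborSet, Set.mem_image]
          constructor
          · intro hq
            rcases q with ⟨y, j⟩ | b
            · rcases a1' _ _ _ _ hq with ⟨h4, h5⟩ | ⟨h4, h5, h6⟩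
              · exact ⟨y, h5, by rw [h4]⟩
              · rw [h] at h6
                exact absurd h6 (by norm_num)
            · exact absurd hq (hlr _ _)
          · rintro ⟨y, hy, rfl⟩
            exact a1 x y i hy
        rw [h3, Set.ncard_image_of_injective _ hinj, h]
    · have h3 : C.neighborSet (Sum.inr a) = {Sum.inr (a + 1), Sum.inr (a + 4)} := by
        ext q
        simp only [SimpleGraph.mem_neighborSet, Set.mem_insert_iff, Set.mem_singleton_iff]
        rcases q with p | b
        · constructor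
          · intro h
            exact absurd h.symm (hlr _ _)
          · rintro (h | h) <;> exact absurd h (by simp)
        · rw [hrr]
          simp only [Sum.inr.injEq]
          revert a b
          decide
      rw [h3, Set.ncard_pair]
      simp only [ne_eq, Sum.inr.injEq]
      clear h3
      revert a
      decide
  have htriC : ∀ a b c, C.Adj a b → C.Adj b c → C.Adj c a → False := by
    rintro (⟨x, i⟩ | a) (⟨y, j⟩ | b) (⟨z, k⟩ | c) hab hbc hca
    · rcases a1' _ _ _ _ hab with ⟨h1, h1'⟩ | ⟨h1, h1', h1''⟩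
      · rcases a1' _ _ _ _ hbc with ⟨h2, h2'⟩ | ⟨h2, h2', h2''⟩
        · rcases a1' _ _ _ _ hca with ⟨h3, h3'⟩ | ⟨h3, h3', h3''⟩
          · exact htri x y z h1' h2' h3'
          · subst h1
            subst h2
            simp at h3
        · rcases a1' _ _ _ _ hca with ⟨h3, h3'⟩ | ⟨h3, h3', h3''⟩
          · subst h1
            subst h2
            simp at h3
          · subst h2'
            subst h3'
            exact h1'.ne rfl
      · rcases a1' _ _ _ _ hbc with ⟨h2, h2'⟩ | ⟨h2, h2', h2''⟩
        · rcases a1' _ _ _ _ hca with ⟨h3, h3'⟩ | ⟨h3, h3', h3''⟩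
          · subst h2
            subst h3
            simp at h1
          · subst h1'
            subst h3'
            exact h2'.ne rfl
        · rcases a1' _ _ _ _ hca with ⟨h3, h3'⟩ | ⟨h3, h3', h3''⟩
          · subst h1'
            subst h2'
            exact h3'.ne rfl
          · subst h1
            subst h2
            cases i <;> simp at h3
    · exact hlr _ _ hbc
    · exact hlr _ _ hab
    · exact hlr _ _ hab
    · exact hlr _ _ hab.symm
    · exact hlr _ _ hab.symm
    · exact hlr _ _ hca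
    · rw [hrr] at hab hbc hca
      revert a b c
      decide
  have hμμ : ∀ w, μ (μ w) = w := by
    rintro (⟨x, i⟩ | a)
    · by_cases hx : x = r
      · subst hx
        cases i
        · rw [μr0, μr0]
        · rw [μr1, μ0]
      · by_cases hnx : n x = x
        · rw [μf x i hx hnx, μf x _ hx hnx, Bool.not_not]
        · rw [μn x i hnx, μn (n x) i (hnn x hnx), hn]
    · by_cases ha : a = 0
      · rw [ha, μ0, μr1]
      · have h3 : g5 a ≠ 0 := by
          revert a
          decide
        rw [μa a ha, μa _ h3]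
        congr 1
        revert a
        decide
  have hμC : ∀ w, ¬ C.Adj w (μ w) := by
    rintro (⟨x, i⟩ | a) h
    · by_cases hx : x = r
      · subst hx
        cases i
        · rw [μr0] at h
          exact h.ne rfl
        · rw [μr1] at h
          exact hlr _ _ h
      · by_cases hnx : n x = x
        · rw [μf x i hx hnx] at h
          rcases a1' _ _ _ _ h with ⟨h4, h5⟩ | ⟨h4, h5, h6⟩
          · simp at h4
          · have := hfix x hnx
            omega
        · rw [μn x i hnx] at h
          rcases a1' _ _ _ _ h with ⟨h4, h5⟩ | ⟨h4, h5, h6⟩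
          · exact hnC x h5
          · exact hnx h5.symm
    · by_cases ha : a = 0
      · rw [ha, μ0] at h
        exact hlr _ _ h.symm
      · rw [μa a ha, hrr] at h
        revert a
        decide
  have hconnC : ∀ S : Set ((V × Bool) ⊕ Fin 5), S.Nonempty → (∀ v ∈ S, μ v ∈ S) →
      (∀ v ∈ S, ∀ w, C.Adj v w → w ∈ S) → ∀ v, v ∈ S := by
    intro S hS hSμ hSC
    -- every copy is in `S` as soon as one vertex is
    have hcopy : ∀ x i, Sum.inl (x, i) ∈ S → ∀ y, Sum.inl (y, i) ∈ S := by
      intro x i hx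
      apply hconn {y | Sum.inl (y, i) ∈ S} ⟨x, hx⟩
      · intro v hv
        by_cases hnv : n v = v
        · rw [hnv]
          exact hv
        · have h3 := hSμ _ hv
          rw [μn v i hnv] at h3
          exact h3
      · intro v hv w hvw
        exact hSC _ hv _ (a1 v w i hvw)
    have hswap : ∀ i, (∀ y, Sum.inl (y, i) ∈ S) → ∀ y, Sum.inl (y, !i) ∈ S := by
      intro i hi
      apply hcopy s
      rcases hs with h | h
      · have h3 := hSμ _ (hi s)
        rw [μf s i hsr h] at h3
        exact h3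
      · exact hSC _ (hi s) _ (Or.inr (Or.inl ⟨s, i, rfl, rfl, h⟩))
    have hall : ∀ i, (∀ y, Sum.inl (y, i) ∈ S) → ∀ v, v ∈ S := by
      intro i hi
      have hb : ∀ j y, Sum.inl (y, j) ∈ S := by
        intro j y
        by_cases hij : j = i
        · rw [hij]
          exact hi y
        · have : j = !i := by
            cases i <;> cases j <;> simp at hij ⊢
          rw [this]
          exact hswap i hi y
      have h0 : (Sum.inr 0 : (V × Bool) ⊕ Fin 5) ∈ S := by
        have h3 := hSμ _ (hb true r)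
        rw [μr1] at h3
        exact h3
      have hstep : ∀ a : Fin 5, (Sum.inr a : (V × Bool) ⊕ Fin 5) ∈ S →
          (Sum.inr (a + 1) : (V × Bool) ⊕ Fin 5) ∈ S := by
        intro a ha
        exact hSC _ ha _ ((hrr _ _).2 (Or.inl rfl))
      have h1 := hstep 0 h0
      have h2 := hstep _ h1
      have h3 := hstep _ h2
      have h4 := hstep _ h3
      rintro (⟨x, i⟩ | a)
      · exact hb i x
      · fin_cases a
        · exact h0
        · exact h1
        · exact h2
        · exact h3
        · exact h4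
    obtain ⟨v, hv⟩ := hS
    rcases v with ⟨x, i⟩ | a
    · exact hall i (hcopy x i hv)
    · have hstep : ∀ a : Fin 5, (Sum.inr a : (V × Bool) ⊕ Fin 5) ∈ S →
          (Sum.inr (a + 1) : (V × Bool) ⊕ Fin 5) ∈ S := by
        intro a ha
        exact hSC _ ha _ ((hrr _ _).2 (Or.inl rfl))
      have h0 : (Sum.inr 0 : (V × Bool) ⊕ Fin 5) ∈ S := by
        have e0 := hv
        have e1 := hstep _ e0
        have e2 := hstep _ e1
        have e3 := hstep _ e2
        have e4 := hstep _ e3
        fin_cases a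
        · exact e0
        · exact e4
        · exact e3
        · exact e2
        · exact e1
      have h3 := hSμ _ h0
      rw [μ0] at h3
      exact hall true (hcopy r true h3)
  obtain ⟨σ, hcore, hσ⟩ := core_of_factor C h2 htriC μ hμμ hμC hconnC
  refine ⟨σ, μ, hcore, ?_, ?_⟩
  · rintro (⟨x, i⟩ | a)
    · by_cases hx : x = r
      · subst hx
        cases i
        · simp [μr0]
        · simp [μr1]
      · by_cases hnx : n x = x
        · rw [μf x i hx hnx]
          simp [hx]
        · rw [μn x i hnx]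
          simp [hx, hnx]
    · by_cases ha : a = 0
      · rw [ha, μ0]
        simp
      · rw [μa a ha]
        simp only [Sum.inr.injEq, reduceCtorEq, iff_false]
        revert a
        decide
  · intro x y hxy
    refine ⟨?_, ?_⟩
    · intro h
      simp only [Sum.inl.injEq, Prod.mk.injEq, and_true] at h
      rcases hxy with h3 | h3
      · exact h3.ne h
      · exact h3.2 h
    · rcases hxy with h3 | ⟨h3, h4⟩
      · rcases (hσ _ _).1 (a1 x y false h3) with h4 | h4
        · exact Or.inr (Or.inr (Or.inl h4))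
        · exact Or.inr (Or.inr (Or.inr h4))
      · left
        rw [h3] at h4 ⊢
        rw [μn x false h4.symm]

end Pool.Agent.Lib.MP_a17342_co.Red
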