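import Pool.Agent.Lib.MP_a17342_co.Red.Contract

/-!
# Reductions for RAC drawings: counting of leaving edges
-/

set_option autoImplicit false

namespace Pool.Agent.Lib.MP_a17342_co.Red

/-- no cut with at most one edge -/
def NoCut {V : Type*} (G : SimpleGraph V) : Prop :=
  ∀ A : Set V, ∀ u ∈ A, ∀ v, v ∉ A →
    ∃ a ∈ A, ∃ b, b ∉ A ∧ G.Adj a b ∧ ¬ (a = u ∧ b = v)

section

variable {V : Type*} [Fintype V] [DecidableEq V] (G : SimpleGraph V) [DecidableRel G.Adj]

/-- the number of ordered adjacent pairs in a set is even -/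
theorem even_inside (K : Finset V) :
    Even ((Finset.univ : Finset (V × V)).filter
      (fun p => p.1 ∈ K ∧ p.2 ∈ K ∧ G.Adj p.1 p.2)).card := by
  rw [← ZMod.natCast_eq_zero_iff_even, Finset.cast_card]
  refine Finset.sum_involution (fun p _ => (p.2, p.1)) ?_ ?_ ?_ ?_
  · intro p _
    exact (by decide : (1 : ZMod 2) + 1 = 0)
  · intro p hp _ h
    simp only [Finset.mem_filter, Finset.mem_univ, true_and] at hp
    have h1 : p.2 = p.1 := congrArg Prod.fst h
    exact hp.2.2.ne h1.symm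
  · intro p hp
    simp only [Finset.mem_filter, Finset.mem_univ, true_and] at hp ⊢
    exact ⟨hp.2.1, hp.1, hp.2.2.symm⟩
  · intro p _
    rfl

theorem degsum1 (B : Finset V) :
    ((Finset.univ : Finset (V × V)).filter (fun p => p.1 ∈ B ∧ G.Adj p.1 p.2)).card =
      ∑ x ∈ B, G.degree x := by
  rw [Finset.card_eq_sum_card_fiberwise (f := Prod.fst) (t := B)]
  · refine Finset.sum_congr rfl fun x hx => ?_
    rw [← SimpleGraph.card_neighborFinset_eq_degree]
    symm
    refine Finset.card_bij (fun y _ => (x, y)) ?_ ?_ ?_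
    · intro y hy
      simp only [Finset.mem_filter, Finset.mem_univ, true_and]
      exact ⟨⟨hx, by simpa using hy⟩, trivial⟩
    · intro y _ z _ h
      exact congrArg Prod.snd h
    · rintro ⟨a, b⟩ hp
      simp only [Finset.mem_filter, Finset.mem_univ, true_and] at hp
      obtain ⟨⟨h1, h2⟩, rfl⟩ := hp
      exact ⟨b, by simpa using h2, rfl⟩
  · intro p hp
    simp only [Finset.coe_filter, Finset.mem_univ, true_and, Set.mem_setOf_eq] at hp
    exact hp.1

/-- pairs entering a set -/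
def Lv (K : Finset V) : Finset (V × V) :=
  (Finset.univ : Finset (V × V)).filter (fun p => p.2 ∈ K ∧ p.1 ∉ K ∧ G.Adj p.1 p.2)

theorem degsum2 (K : Finset V) :
    ((Finset.univ : Finset (V × V)).filter
      (fun p => p.1 ∈ K ∧ p.2 ∈ K ∧ G.Adj p.1 p.2)).card + (Lv G K).card =
      ∑ x ∈ K, G.degree x := by
  rw [← degsum1]
  have h1 : (Lv G K).card = ((Finset.univ : Finset (V × V)).filter
      (fun p => p.1 ∈ K ∧ p.2 ∉ K ∧ G.Adj p.1 p.2)).card := by
    refine Finset.card_bij (fun p _ => (p.2, p.1)) ?_ ?_ ?_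
    · intro p hp
      simp only [Lv, Finset.mem_filter, Finset.mem_univ, true_and] at hp ⊢
      exact ⟨hp.1, hp.2.1, hp.2.2.symm⟩
    · rintro ⟨a, b⟩ _ ⟨c, d⟩ _ h
      simp only [Prod.mk.injEq] at h ⊢
      exact ⟨h.2, h.1⟩
    · rintro ⟨a, b⟩ hp
      simp only [Finset.mem_filter, Finset.mem_univ, true_and] at hp
      refine ⟨(b, a), ?_, rfl⟩
      simp only [Lv, Finset.mem_filter, Finset.mem_univ, true_and]
      exact ⟨hp.1, hp.2.1, hp.2.2.symm⟩
  rw [h1, ← Finset.card_union_of_disjoint]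
  · congr 1
    ext p
    simp only [Finset.mem_union, Finset.mem_filter, Finset.mem_univ, true_and]
    tauto
  · rw [Finset.disjoint_left]
    intro p hp hq
    simp only [Finset.mem_filter, Finset.mem_univ, true_and] at hp hq
    exact hq.2.1 hp.2.1

theorem odd_leaving (K : Finset V) (h3 : ∀ x ∈ K, G.degree x = 3) (hodd : Odd K.card) :
    Odd (Lv G K).card := by
  have h1 := degsum2 G K
  have h2 := even_inside G K
  rw [Finset.sum_congr rfl h3, Finset.sum_const, smul_eq_mul] at h1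
  have h4 : Odd (K.card * 3) := hodd.mul (by decide)
  rw [← h1] at h4
  by_contra h5
  rw [Nat.not_odd_iff_even] at h5
  exact (Nat.not_odd_iff_even.2 (h2.add h5)) h4

theorem three_leaving (hcut : NoCut G) (K : Finset V) (h3 : ∀ x ∈ K, G.degree x = 3)
    (hodd : Odd K.card) : 3 ≤ (Lv G K).card := by
  have h1 := odd_leaving G K h3 hodd
  have h2 : ¬ (Lv G K).card = 1 := by
    intro h2
    obtain ⟨p, hp⟩ := Finset.card_eq_one.1 h2
    have hpm : p ∈ Lv G K := by rw [hp]; simp
    have hpm' := hpm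
    simp only [Lv, Finset.mem_filter, Finset.mem_univ, true_and] at hpm'
    obtain ⟨a, ha, b, hb, hab, hne⟩ := hcut (↑K) p.2 hpm'.1 p.1 hpm'.2.1
    apply hne
    have h4 : (b, a) ∈ Lv G K := by
      simp only [Lv, Finset.mem_filter, Finset.mem_univ, true_and]
      exact ⟨ha, hb, hab.symm⟩
    rw [hp, Finset.mem_singleton] at h4
    rw [← h4]
    exact ⟨rfl, rfl⟩
  rcases h1 with ⟨k, hk⟩
  omega

theorem count_le (hcut : NoCut G) (hG : ∀ v, G.degree v ≤ 3) {ι : Type*} [DecidableEq ι]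
    (S : Finset ι) (K : ι → Finset V)
    (hdisj : ∀ i ∈ S, ∀ j ∈ S, i ≠ j → Disjoint (K i) (K j))
    (hodd : ∀ i ∈ S, Odd (K i).card) (hdeg : ∀ i ∈ S, ∀ x ∈ K i, G.degree x = 3)
    (R U : Finset V) (hR : R.card ≤ 1) (hR2 : ∀ r ∈ R, G.degree r ≤ 2)
    (hout : ∀ i ∈ S, ∀ x ∈ K i, ∀ y, y ∉ K i → G.Adj x y → y ∈ R ∨ y ∈ U) :
    S.card ≤ U.card := by
  have h1 : (S.biUnion fun i => Lv G (K i)).card = ∑ i ∈ S, (Lv G (K i)).card := by
    refine Finset.card_biUnion ?_
    intro i hi j hj hij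
    show Disjoint (Lv G (K i)) (Lv G (K j))
    rw [Finset.disjoint_left]
    intro p hp hq
    simp only [Lv, Finset.mem_filter, Finset.mem_univ, true_and] at hp hq
    exact Finset.disjoint_left.1 (hdisj i hi j hj hij) hp.1 hq.1
  have h2 : S.card * 3 ≤ ∑ i ∈ S, (Lv G (K i)).card := by
    rw [← smul_eq_mul]
    exact Finset.card_nsmul_le_sum _ _ _ fun i hi => three_leaving G hcut _ (hdeg i hi) (hodd i hi)
  have h3 : (S.biUnion fun i => Lv G (K i)).card ≤
      ((Finset.univ : Finset (V × V)).filter (fun p => p.1 ∈ R ∪ U ∧ G.Adj p.1 p.2)).card := by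
    refine Finset.card_le_card ?_
    intro p hp
    simp only [Finset.mem_biUnion, Lv, Finset.mem_filter, Finset.mem_univ, true_and] at hp
    obtain ⟨i, hi, h4, h5, h6⟩ := hp
    simp only [Finset.mem_filter, Finset.mem_univ, true_and, Finset.mem_union]
    exact ⟨hout i hi p.2 h4 p.1 h5 h6.symm, h6⟩
  rw [degsum1] at h3
  have h4 : ∑ x ∈ R ∪ U, G.degree x ≤ 2 + 3 * U.card := by
    have h5 : R ∪ U = (R \ U) ∪ U := by
      rw [Finset.sdiff_union_self_eq_union]
    rw [h5, Finset.sum_union Finset.sdiff_disjoint]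
    have h6 : ∑ x ∈ R \ U, G.degree x ≤ (R \ U).card * 2 := by
      rw [← smul_eq_mul]
      exact Finset.sum_le_card_nsmul _ _ _ fun x hx => hR2 x (Finset.mem_sdiff.1 hx).1
    have h7 : ∑ x ∈ U, G.degree x ≤ U.card * 3 := by
      rw [← smul_eq_mul]
      exact Finset.sum_le_card_nsmul _ _ _ fun x _ => hG x
    have h8 : (R \ U).card ≤ R.card := Finset.card_le_card Finset.sdiff_subset
    omega
  omega

end

end Pool.Agent.Lib.MP_a17342_co.Red
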