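import Pool.Agent.Lib.MP_a17342_co.Defs

/-!
# Reductions for RAC drawings: similarities, and gluing at a bridge
-/

set_option autoImplicit false

namespace Pool.Agent.Lib.MP_a17342_co.Red

/-- scalar product -/
def dot (a b : ℝ × ℝ) : ℝ := a.1 * b.1 + a.2 * b.2

/-- determinant -/
def crs (a b : ℝ × ℝ) : ℝ := a.1 * b.2 - a.2 * b.1

/-- complex multiplication -/
def rot (c w : ℝ × ℝ) : ℝ × ℝ := (c.1 * w.1 - c.2 * w.2, c.1 * w.2 + c.2 * w.1)

/-- `r` is the only vertex extreme in the direction `d`. -/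
def ExpD {V : Type*} (d : ℝ × ℝ) (p : V → ℝ × ℝ) (r : V) : Prop :=
  ∀ v, v ≠ r → dot d (p r) < dot d (p v)

/-- `r` is the only extreme vertex in some direction. -/
def Exposed {V : Type*} (p : V → ℝ × ℝ) (r : V) : Prop := ∃ d : ℝ × ℝ, d ≠ 0 ∧ ExpD d p r

theorem mem_seg {a b x : ℝ × ℝ} (h : x ∈ segment ℝ a b) :
    ∃ t : ℝ, 0 ≤ t ∧ t ≤ 1 ∧ x = a + t • (b - a) := by
  rw [segment_eq_image'] at h
  obtain ⟨t, ⟨h0, h1⟩, rfl⟩ := h
  exact ⟨t, h0, h1, rfl⟩

theorem seg_mem {a b : ℝ × ℝ} {t : ℝ} (h0 : 0 ≤ t) (h1 : t ≤ 1) :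
    a + t • (b - a) ∈ segment ℝ a b := by
  rw [segment_eq_image']
  exact ⟨t, ⟨h0, h1⟩, rfl⟩

theorem rot_sub (c x y : ℝ × ℝ) : rot c (x - y) = rot c x - rot c y := by
  ext <;> simp [rot] <;> ring

theorem rot_add (c x y : ℝ × ℝ) : rot c (x + y) = rot c x + rot c y := by
  ext <;> simp [rot] <;> ring

theorem rot_smul (c x : ℝ × ℝ) (t : ℝ) : rot c (t • x) = t • rot c x := by
  ext <;> simp [rot] <;> ring

theorem dot_rot (c x y : ℝ × ℝ) : dot (rot c x) (rot c y) = dot c c * dot x y := by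
  simp only [dot, rot]
  ring

theorem dot_self_pos {c : ℝ × ℝ} (hc : c ≠ 0) : 0 < dot c c := by
  have h : c.1 ≠ 0 ∨ c.2 ≠ 0 := by
    by_contra h
    push Not at h
    exact hc (Prod.ext h.1 h.2)
  rcases h with h | h
  · have := mul_self_pos.2 h
    have h2 := mul_self_nonneg c.2
    simp only [dot]
    linarith
  · have := mul_self_pos.2 h
    have h2 := mul_self_nonneg c.1
    simp only [dot]
    linarith

theorem rot_eq_zero {c x : ℝ × ℝ} (hc : c ≠ 0) (h : rot c x = 0) : x = 0 := by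
  have h1 : dot c c * dot x x = 0 := by
    rw [← dot_rot, h]
    simp [dot]
  have h2 := dot_self_pos hc
  have h3 : dot x x = 0 := by
    rcases mul_eq_zero.1 h1 with h | h
    · exact absurd h h2.ne'
    · exact h
  by_contra hx
  exact (dot_self_pos hx).ne' h3

/-- A similarity preserves RAC drawings. -/
theorem isRAC_sim {V : Type*} {G : SimpleGraph V} {q : V → ℝ × ℝ} (hq : IsRAC G q)
    {c : ℝ × ℝ} (hc : c ≠ 0) (z : ℝ × ℝ) : IsRAC G (fun v => z + rot c (q v)) := by
  obtain ⟨h1, h2, h3⟩ := hq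
  have key : ∀ x y : ℝ × ℝ, z + rot c x = z + rot c y → x = y := by
    intro x y h
    have h4 : rot c (x - y) = 0 := by
      rw [rot_sub, sub_eq_zero]
      exact add_left_cancel h
    exact sub_eq_zero.1 (rot_eq_zero hc h4)
  have hpt : ∀ (x y : ℝ × ℝ) (t : ℝ), z + rot c x + t • (z + rot c y - (z + rot c x)) =
      z + rot c (x + t • (y - x)) := by
    intro x y t
    rw [rot_add, rot_smul, rot_sub, add_sub_add_left_eq_sub, add_assoc]
  refine ⟨fun x y h => h1 (key _ _ h), fun a b v hab hva hvb hmem => ?_,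
    fun a b v w hab hvw hav haw hbv hbw hne => ?_⟩
  · obtain ⟨t, ht0, ht1, ht⟩ := mem_seg hmem
    rw [hpt] at ht
    apply h2 a b v hab hva hvb
    rw [key _ _ ht]
    exact seg_mem ht0 ht1
  · obtain ⟨x, hx1, hx2⟩ := hne
    obtain ⟨t, ht0, ht1, ht⟩ := mem_seg hx1
    obtain ⟨s, hs0, hs1, hs⟩ := mem_seg hx2
    rw [hpt] at ht hs
    rw [ht] at hs
    have h4 := key _ _ hs
    have h5 := h3 a b v w hab hvw hav haw hbv hbw
      ⟨q a + t • (q b - q a), seg_mem ht0 ht1, by rw [h4]; exact seg_mem hs0 hs1⟩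
    have h6 : dot (rot c (q b - q a)) (rot c (q w - q v)) = 0 := by
      rw [dot_rot]
      have h7 : dot (q b - q a) (q w - q v) = 0 := h5
      rw [h7, mul_zero]
    rw [rot_sub, rot_sub] at h6
    simp only [dot, Prod.fst_sub, Prod.snd_sub] at h6
    simp only [Prod.fst_add, Prod.snd_add]
    linarith

theorem isRAC_mono {V : Type*} {G H : SimpleGraph V} (h : G ≤ H) {p : V → ℝ × ℝ}
    (hp : IsRAC H p) : IsRAC G p :=
  ⟨hp.1, fun a b c hab => hp.2.1 a b c (h hab),
    fun a b c d hab hcd => hp.2.2 a b c d (h hab) (h hcd)⟩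

/-- Restriction of a drawing along an injective map. -/
theorem isRAC_comp {V W : Type*} {G : SimpleGraph V} {H : SimpleGraph W} {p : W → ℝ × ℝ}
    (hp : IsRAC H p) (f : V → W) (hf : Function.Injective f)
    (hadj : ∀ a b, G.Adj a b → H.Adj (f a) (f b)) : IsRAC G (fun v => p (f v)) :=
  ⟨hp.1.comp hf, fun a b c hab hca hcb => hp.2.1 _ _ _ (hadj a b hab) (hf.ne hca) (hf.ne hcb),
    fun a b c d hab hcd h1 h2 h3 h4 => hp.2.2 _ _ _ _ (hadj a b hab) (hadj c d hcd) (hf.ne h1)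
      (hf.ne h2) (hf.ne h3) (hf.ne h4)⟩

theorem crs_add (x y z : ℝ × ℝ) : crs x (y + z) = crs x y + crs x z := by
  simp only [crs, Prod.fst_add, Prod.snd_add]
  ring

theorem crs_smul (x y : ℝ × ℝ) (t : ℝ) : crs x (t • y) = t * crs x y := by
  simp only [crs, Prod.smul_fst, Prod.smul_snd, smul_eq_mul]
  ring

theorem dot_add (x y z : ℝ × ℝ) : dot x (y + z) = dot x y + dot x z := by
  simp only [dot, Prod.fst_add, Prod.snd_add]
  ring

theorem dot_sub (x y z : ℝ × ℝ) : dot x (y - z) = dot x y - dot x z := by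
  simp only [dot, Prod.fst_sub, Prod.snd_sub]
  ring

theorem dot_smul (x y : ℝ × ℝ) (t : ℝ) : dot x (t • y) = t * dot x y := by
  simp only [dot, Prod.smul_fst, Prod.smul_snd, smul_eq_mul]
  ring

/-- A thin cone at `p u` in a direction which is not parallel to the edges at `u` is free. -/
theorem cone_free {A : Type*} [Finite A] {H : SimpleGraph A} {p : A → ℝ × ℝ} (hp : IsRAC H p)
    (u : A) (e : ℝ × ℝ) (he0 : e ≠ 0) (he : ∀ b, b ≠ u → crs (p b - p u) e ≠ 0) :
    ∃ ρ : ℝ, 0 < ρ ∧ ∀ (s : ℝ) (w : ℝ × ℝ), 0 < s → s < ρ → ‖w‖ < ρ →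
      (∀ a, p u + s • (e + w) ≠ p a) ∧
      ∀ a b, H.Adj a b → p u + s • (e + w) ∉ segment ℝ (p a) (p b) := by
  classical
  have hcont : Continuous fun x : ℝ × (ℝ × ℝ) => p u + x.1 • (e + x.2) := by fun_prop
  have h0 : (fun x : ℝ × (ℝ × ℝ) => p u + x.1 • (e + x.2)) (0, 0) = p u := by simp
  -- edges away from `u`
  have h1 : ∀ᶠ x : ℝ × (ℝ × ℝ) in nhds (0, 0), ∀ a b, H.Adj a b → u ≠ a → u ≠ b →
      p u + x.1 • (e + x.2) ∉ segment ℝ (p a) (p b) := by
    rw [Filter.eventually_all]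
    intro a
    rw [Filter.eventually_all]
    intro b
    by_cases hab : H.Adj a b ∧ u ≠ a ∧ u ≠ b
    · have h2 := hp.2.1 a b u hab.1 hab.2.1 hab.2.2
      have h3 : IsClosed (segment ℝ (p a) (p b)) := by
        have h31 : IsCompact (segment ℝ (p a) (p b)) := by
          rw [segment_eq_image']
          exact isCompact_Icc.image (by fun_prop)
        exact h31.isClosed
      have h4 : (fun x : ℝ × (ℝ × ℝ) => p u + x.1 • (e + x.2)) (0, 0) ∈
          (segment ℝ (p a) (p b))ᶜ := by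
        rw [h0]
        exact h2
      have h5 := hcont.continuousAt.eventually (h3.isOpen_compl.mem_nhds h4)
      filter_upwards [h5] with x hx _ _ _
      exact hx
    · filter_upwards with x h2 h3 h4
      exact absurd ⟨h2, h3, h4⟩ hab
  -- directions
  have h2 : ∀ᶠ x : ℝ × (ℝ × ℝ) in nhds (0, 0), ∀ b, b ≠ u → crs (p b - p u) (e + x.2) ≠ 0 := by
    rw [Filter.eventually_all]
    intro b
    by_cases hb : b = u
    · filter_upwards with x h3
      exact absurd hb h3
    · have h3 : Continuous fun x : ℝ × (ℝ × ℝ) => crs (p b - p u) (e + x.2) := by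
        unfold crs
        fun_prop
      have h4 : (fun x : ℝ × (ℝ × ℝ) => crs (p b - p u) (e + x.2)) (0, 0) ≠ 0 := by
        simpa using he b hb
      have h5 := h3.continuousAt.eventually_ne h4
      filter_upwards [h5] with x hx _
      exact hx
  obtain ⟨ρ, hρ, hρ'⟩ := Metric.eventually_nhds_iff.1 (h1.and h2)
  refine ⟨min ρ ‖e‖, lt_min hρ (norm_pos_iff.2 he0), fun s w hs0 hs1' hw' => ?_⟩
  have hs1 : s < ρ := hs1'.trans_le (min_le_left _ _)
  have hw : ‖w‖ < ρ := hw'.trans_le (min_le_left _ _)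
  have hew : e + w ≠ 0 := by
    intro h
    have h1 : w = -e := (neg_eq_of_add_eq_zero_right h).symm
    rw [h1, norm_neg] at hw'
    exact absurd hw' (not_lt.2 (min_le_right _ _))
  have hd : dist (s, w) ((0 : ℝ), (0 : ℝ × ℝ)) < ρ := by
    rw [Prod.dist_eq, max_lt_iff]
    constructor
    · simp only [dist_zero_right, Real.norm_eq_abs, abs_of_pos hs0]
      exact hs1
    · simp only [dist_zero_right]
      exact hw
  obtain ⟨h3, h4⟩ := hρ' hd
  -- a point on a line through `p u`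
  have h5 : ∀ b, b ≠ u → ∀ t : ℝ, p u + s • (e + w) ≠ p u + t • (p b - p u) := by
    intro b hb t ht
    have h6 := add_left_cancel ht
    have h7 : crs (p b - p u) (s • (e + w)) = 0 := by
      rw [h6, crs_smul]
      simp only [crs]
      ring
    rw [crs_smul] at h7
    rcases mul_eq_zero.1 h7 with h8 | h8
    · exact hs0.ne' h8
    · exact h4 b hb h8
  constructor
  · intro a ha
    by_cases hau : a = u
    · subst hau
      -- direction nonzero: if there is another vertex; else use e + w ≠ 0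
      by_cases hex : ∃ b, b ≠ a
      · obtain ⟨b, hb⟩ := hex
        apply h5 b hb 0
        rw [zero_smul, add_zero]
        exact ha
      · -- single vertex
        have h6 : s • (e + w) = 0 := by
          have : p a + s • (e + w) = p a + 0 := by rw [add_zero]; exact ha
          exact add_left_cancel this
        rcases smul_eq_zero.1 h6 with h7 | h7
        · exact hs0.ne' h7
        · exact hew h7
    · apply h5 a hau 1
      rw [one_smul, add_sub_cancel]
      exact ha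
  · intro a b hab hmem
    by_cases hua : u = a
    · subst hua
      obtain ⟨t, _, _, ht⟩ := mem_seg hmem
      exact h5 b hab.ne' t ht
    · by_cases hub : u = b
      · subst hub
        rw [segment_symm] at hmem
        obtain ⟨t, _, _, ht⟩ := mem_seg hmem
        exact h5 a hab.ne t ht
      · exact h3 a b hab hua hub hmem

/-- A direction with prescribed sign which avoids finitely many lines. -/
theorem exists_dir {A : Type*} [Finite A] (f : A → ℝ × ℝ) (d : ℝ × ℝ) (hd : d ≠ 0) :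
    ∃ e : ℝ × ℝ, 0 < dot d e ∧ ∀ a, f a ≠ 0 → crs (f a) e ≠ 0 := by
  classical
  -- `e = d + t d'`
  let e : ℝ → ℝ × ℝ := fun t => (d.1 - t * d.2, d.2 + t * d.1)
  have h1 : ∀ a, f a ≠ 0 → {t : ℝ | crs (f a) (e t) = 0}.Finite := by
    intro a ha
    have h2 : ∀ t, crs (f a) (e t) = crs (f a) d + t * dot (f a) d := by
      intro t
      simp only [crs, dot, e]
      ring
    by_cases h3 : dot (f a) d = 0
    · -- then `crs (f a) d ≠ 0`
      have h4 : crs (f a) d ≠ 0 := by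
        intro h5
        have h6 : dot (f a) (f a) * dot d d = 0 := by
          have : dot (f a) (f a) * dot d d = dot (f a) d ^ 2 + crs (f a) d ^ 2 := by
            simp only [crs, dot]
            ring
          rw [this, h3, h5]
          ring
        rcases mul_eq_zero.1 h6 with h7 | h7
        · exact (dot_self_pos ha).ne' h7
        · exact (dot_self_pos hd).ne' h7
      convert Set.finite_empty (α := ℝ)
      ext t
      simp only [Set.mem_setOf_eq, h2, h3, mul_zero, add_zero, Set.mem_empty_iff_false, iff_false]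
      exact h4
    · refine (Set.finite_singleton (-(crs (f a) d) / dot (f a) d)).subset ?_
      intro t ht
      rw [Set.mem_setOf_eq, h2] at ht
      rw [Set.mem_singleton_iff, eq_div_iff h3]
      linarith
  have h2 : (⋃ a ∈ {a : A | f a ≠ 0}, {t : ℝ | crs (f a) (e t) = 0}).Finite :=
    Set.Finite.biUnion (Set.toFinite _) fun a ha => h1 a ha
  obtain ⟨t, ht⟩ := h2.exists_notMem
  refine ⟨e t, ?_, fun a ha h3 => ht ?_⟩
  · have h3 : dot d (e t) = dot d d := by
      simp only [dot, e]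
      ring
    rw [h3]
    exact dot_self_pos hd
  · rw [Set.mem_iUnion₂]
    exact ⟨a, ha, h3⟩

/-- Points of a segment between two points of norm `≤ M`. -/
theorem norm_seg_le {a b : ℝ × ℝ} {M t : ℝ} (ha : ‖a‖ ≤ M) (hb : ‖b‖ ≤ M) (h0 : 0 ≤ t)
    (h1 : t ≤ 1) : ‖a + t • (b - a)‖ ≤ M := by
  have h : a + t • (b - a) = (1 - t) • a + t • b := by
    rw [sub_smul, one_smul, smul_sub]
    abel
  rw [h]
  calc ‖(1 - t) • a + t • b‖ ≤ ‖(1 - t) • a‖ + ‖t • b‖ := norm_add_le _ _
    _ = (1 - t) * ‖a‖ + t * ‖b‖ := by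
        rw [norm_smul, norm_smul, Real.norm_eq_abs, Real.norm_eq_abs, abs_of_nonneg h0,
          abs_of_nonneg (by linarith)]
    _ ≤ (1 - t) * M + t * M := by
        have h2 : 0 ≤ 1 - t := by linarith
        gcongr
    _ = M := by ring

theorem abs_dot_le (d w : ℝ × ℝ) : |dot d w| ≤ (|d.1| + |d.2|) * ‖w‖ := by
  have h1 : |w.1| ≤ ‖w‖ := norm_fst_le w
  have h2 : |w.2| ≤ ‖w‖ := norm_snd_le w
  calc |dot d w| ≤ |d.1 * w.1| + |d.2 * w.2| := abs_add_le _ _
    _ = |d.1| * |w.1| + |d.2| * |w.2| := by rw [abs_mul, abs_mul]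
    _ ≤ |d.1| * ‖w‖ + |d.2| * ‖w‖ := by gcongr
    _ = (|d.1| + |d.2|) * ‖w‖ := by ring

/-- Gluing two drawings along at most one edge. -/
theorem glue {V : Type*} [Finite V] (G : SimpleGraph V) (A : Set V) (u v : V) (hu : u ∈ A)
    (hv : v ∉ A) (hcr : ∀ a ∈ A, ∀ b, b ∉ A → G.Adj a b → a = u ∧ b = v)
    (p : A → ℝ × ℝ) (hp : IsRAC (G.induce A) p) (q : ↥Aᶜ → ℝ × ℝ) (hq : IsRAC (G.induce Aᶜ) q)
    (hvq : G.Adj u v → Exposed q ⟨v, hv⟩) (d : ℝ × ℝ) (hd : d ≠ 0) :
    ∃ P : V → ℝ × ℝ, IsRAC G P ∧ ∀ (r : V) (hr : r ∈ A), ExpD d p ⟨r, hr⟩ → ExpD d P r := by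
  classical
  obtain ⟨e, hde, hcrs⟩ := exists_dir (fun b : A => p b - p ⟨u, hu⟩) d hd
  have he0 : e ≠ 0 := by
    rintro rfl
    simp [dot] at hde
  have he : ∀ b : A, b ≠ ⟨u, hu⟩ → crs (p b - p ⟨u, hu⟩) e ≠ 0 := by
    intro b hb
    exact hcrs b (sub_ne_zero.2 (hp.1.ne hb))
  obtain ⟨ρ0, hρ0, hcone0⟩ := cone_free hp ⟨u, hu⟩ e he0 he
  -- smaller radius for the exposed vertex
  obtain ⟨ρ, hρ, hρle, hρd⟩ : ∃ ρ : ℝ, 0 < ρ ∧ ρ ≤ ρ0 ∧ ∀ w : ℝ × ℝ, ‖w‖ < ρ → 0 < dot d (e + w) := by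
    refine ⟨min ρ0 (dot d e / (|d.1| + |d.2| + 1)), lt_min hρ0 (by positivity), min_le_left _ _,
      fun w hw => ?_⟩
    have h1 := abs_dot_le d w
    have h2 : ‖w‖ < dot d e / (|d.1| + |d.2| + 1) := hw.trans_le (min_le_right _ _)
    rw [lt_div_iff₀ (by positivity)] at h2
    have h3 : |dot d w| < dot d e := by
      have := norm_nonneg w
      nlinarith [abs_nonneg d.1, abs_nonneg d.2]
    rw [dot_add]
    have := neg_abs_le (dot d w)
    linarith
  have hcone := fun (s : ℝ) (w : ℝ × ℝ) (h1 : 0 < s) (h2 : s < ρ) (h3 : ‖w‖ < ρ) =>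
    hcone0 s w h1 (h2.trans_le hρle) (h3.trans_le hρle)
  -- normalised drawing of the other side
  obtain ⟨q', hq', hq'v, hq'e⟩ : ∃ q' : ↥Aᶜ → ℝ × ℝ, IsRAC (G.induce Aᶜ) q' ∧ q' ⟨v, hv⟩ = 0 ∧
      (G.Adj u v → ∀ b, b ≠ ⟨v, hv⟩ → 0 < dot e (q' b)) := by
    by_cases huv : G.Adj u v
    · obtain ⟨d', hd', hexp⟩ := hvq huv
      let c : ℝ × ℝ := rot (d'.1, -d'.2) e
      have hc : c ≠ 0 := by
        intro h
        exact he0 (rot_eq_zero (by
          intro h1
          apply hd'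
          have h2 := congrArg Prod.fst h1
          have h3 := congrArg Prod.snd h1
          simp only [Prod.fst_zero, Prod.snd_zero, neg_eq_zero] at h2 h3
          exact Prod.ext h2 h3) h)
      refine ⟨fun b => -(rot c (q ⟨v, hv⟩)) + rot c (q b), isRAC_sim hq hc _, by simp, ?_⟩
      intro _ b hb
      have h1 : -(rot c (q ⟨v, hv⟩)) + rot c (q b) = rot c (q b - q ⟨v, hv⟩) := by
        rw [rot_sub]
        abel
      have h2 : dot e (rot c (q b - q ⟨v, hv⟩)) = dot e e * dot d' (q b - q ⟨v, hv⟩) := by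
        simp only [dot, rot, c]
        ring
      show 0 < dot e (-(rot c (q ⟨v, hv⟩)) + rot c (q b))
      rw [h1, h2, dot_sub]
      have h3 := hexp b hb
      have h4 := dot_self_pos he0
      have h5 : 0 < dot d' (q b) - dot d' (q ⟨v, hv⟩) := by linarith
      positivity
    · refine ⟨fun b => -(rot (1, 0) (q ⟨v, hv⟩)) + rot (1, 0) (q b),
        isRAC_sim hq (by simp) _, by simp, fun h => absurd h huv⟩
  -- bound
  obtain ⟨M, hM0, hM⟩ : ∃ M : ℝ, 0 ≤ M ∧ ∀ b, ‖q' b‖ ≤ M := by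
    obtain ⟨M, hM⟩ := (Set.finite_range fun b => ‖q' b‖).bddAbove
    exact ⟨M, (norm_nonneg _).trans (hM ⟨⟨v, hv⟩, rfl⟩), fun b => hM ⟨b, rfl⟩⟩
  obtain ⟨ε, hε, hε1, hεM⟩ : ∃ ε : ℝ, 0 < ε ∧ ε < ρ ∧ ε * M < ρ := by
    refine ⟨ρ / (M + 2), by positivity, ?_, ?_⟩
    · rw [div_lt_iff₀ (by positivity)]
      nlinarith
    · rw [div_mul_eq_mul_div, div_lt_iff₀ (by positivity)]
      nlinarith
  let P : V → ℝ × ℝ := fun x => if h : x ∈ A then p ⟨x, h⟩ else
    p ⟨u, hu⟩ + ε • (e + ε • q' ⟨x, h⟩)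
  have hPA : ∀ (x : V) (h : x ∈ A), P x = p ⟨x, h⟩ := fun x h => dif_pos h
  have hPB : ∀ (x : V) (h : x ∉ A), P x = p ⟨u, hu⟩ + ε • (e + ε • q' ⟨x, h⟩) := fun x h =>
    dif_neg h
  have hPv : P v = p ⟨u, hu⟩ + ε • e := by rw [hPB v hv, hq'v, smul_zero, add_zero]
  have hsmall : ∀ y : ℝ × ℝ, ‖y‖ ≤ M → ‖ε • y‖ < ρ := by
    intro y hy
    rw [norm_smul, Real.norm_eq_abs, abs_of_pos hε]
    exact lt_of_le_of_lt (mul_le_mul_of_nonneg_left hy hε.le) hεM
  -- points of edges in the second part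
  have hBseg : ∀ (a b : V) (ha : a ∉ A) (hb : b ∉ A) (x : ℝ × ℝ), x ∈ segment ℝ (P a) (P b) →
      ∃ t : ℝ, 0 ≤ t ∧ t ≤ 1 ∧
        x = p ⟨u, hu⟩ + ε • (e + ε • (q' ⟨a, ha⟩ + t • (q' ⟨b, hb⟩ - q' ⟨a, ha⟩))) := by
    intro a b ha hb x hx
    obtain ⟨t, h0, h1, rfl⟩ := mem_seg hx
    refine ⟨t, h0, h1, ?_⟩
    rw [hPB a ha, hPB b hb]
    ext <;> simp <;> ring
  have hBpt : ∀ (a b : V) (ha : a ∉ A) (hb : b ∉ A) (x : ℝ × ℝ), x ∈ segment ℝ (P a) (P b) →
      (∀ c, x ≠ p c) ∧ ∀ c c', (G.induce A).Adj c c' → x ∉ segment ℝ (p c) (p c') := by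
    intro a b ha hb x hx
    obtain ⟨t, h0, h1, rfl⟩ := hBseg a b ha hb x hx
    exact hcone ε _ hε hε1 (hsmall _ (norm_seg_le (hM _) (hM _) h0 h1))
  have hBv : ∀ (a : V) (ha : a ∉ A), (∀ c, P a ≠ p c) ∧
      ∀ c c', (G.induce A).Adj c c' → P a ∉ segment ℝ (p c) (p c') := fun a ha =>
    hBpt a a ha ha _ (left_mem_segment ℝ _ _)
  -- points of the bridge
  have hbr : ∀ x : ℝ × ℝ, x ∈ segment ℝ (P u) (P v) → x = p ⟨u, hu⟩ ∨
      ∃ s : ℝ, 0 < s ∧ s ≤ ε ∧ x = p ⟨u, hu⟩ + s • e := by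
    intro x hx
    obtain ⟨t, h0, h1, rfl⟩ := mem_seg hx
    rw [hPA u hu, hPv]
    rcases h0.eq_or_lt with h2 | h2
    · left
      rw [← h2, zero_smul, add_zero]
    · right
      refine ⟨t * ε, by positivity, by nlinarith, ?_⟩
      rw [add_sub_cancel_left, smul_smul]
  have hbrpt : ∀ s : ℝ, 0 < s → s ≤ ε → (∀ c, p ⟨u, hu⟩ + s • e ≠ p c) ∧
      ∀ c c', (G.induce A).Adj c c' → p ⟨u, hu⟩ + s • e ∉ segment ℝ (p c) (p c') := by
    intro s h1 h2
    have := hcone s 0 h1 (h2.trans_lt hε1) (by rw [norm_zero]; exact hρ)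
    rw [add_zero] at this
    exact this
  -- bridge against the second part
  have hbrB : G.Adj u v → ∀ (a b : V) (ha : a ∉ A) (hb : b ∉ A), a ≠ v → b ≠ v → ∀ x : ℝ × ℝ,
      x ∈ segment ℝ (P a) (P b) → x ∉ segment ℝ (P u) (P v) := by
    intro huv a b ha hb hav hbv x hx hx'
    obtain ⟨t, h0, h1, hxt⟩ := hBseg a b ha hb x hx
    have h2 : 0 < dot e (q' ⟨a, ha⟩ + t • (q' ⟨b, hb⟩ - q' ⟨a, ha⟩)) := by
      have h3 := hq'e huv ⟨a, ha⟩ (fun h => hav (congrArg Subtype.val h))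
      have h4 := hq'e huv ⟨b, hb⟩ (fun h => hbv (congrArg Subtype.val h))
      rw [dot_add, dot_smul, dot_sub]
      rcases h0.eq_or_lt with h5 | h5
      · rw [← h5]
        linarith
      · nlinarith
    have h3 : dot e (x - p ⟨u, hu⟩) > ε * dot e e := by
      rw [hxt, add_sub_cancel_left, dot_smul, dot_add, dot_smul]
      have : 0 < ε * (ε * dot e (q' ⟨a, ha⟩ + t • (q' ⟨b, hb⟩ - q' ⟨a, ha⟩))) := by positivity
      linarith
    have h4 := dot_self_pos he0
    rcases hbr x hx' with h5 | ⟨s, hs0, hs1, h5⟩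
    · rw [h5, sub_self] at h3
      have : dot e (0 : ℝ × ℝ) = 0 := by simp [dot]
      rw [this] at h3
      have : 0 < ε * dot e e := by positivity
      linarith
    · rw [h5, add_sub_cancel_left, dot_smul] at h3
      nlinarith
  -- the second part is a similar copy
  have hsim : IsRAC (G.induce Aᶜ) fun b => P b := by
    have h1 := isRAC_sim (c := (ε ^ 2, 0)) hq' (by
      intro h
      have := congrArg Prod.fst h
      simp only [Prod.fst_zero] at this
      exact (pow_pos hε 2).ne' this) (p ⟨u, hu⟩ + ε • e)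
    have h2 : (fun b : ↥Aᶜ => P b) = fun b => (p ⟨u, hu⟩ + ε • e) + rot (ε ^ 2, 0) (q' b) := by
      funext b
      rw [hPB b.1 b.2]
      ext <;> simp [rot] <;> ring
    rw [h2]
    exact h1
  refine ⟨P, ⟨?_, ?_, ?_⟩, ?_⟩
  · -- injectivity
    intro x y hxy
    by_cases hx : x ∈ A
    · by_cases hy : y ∈ A
      · rw [hPA x hx, hPA y hy] at hxy
        exact congrArg Subtype.val (hp.1 hxy)
      · rw [hPA x hx] at hxy
        exact absurd hxy.symm ((hBv y hy).1 _)
    · by_cases hy : y ∈ A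
      · rw [hPA y hy] at hxy
        exact absurd hxy ((hBv x hx).1 _)
      · have := hsim.1 (a₁ := ⟨x, hx⟩) (a₂ := ⟨y, hy⟩) hxy
        exact congrArg Subtype.val this
  · -- no vertex on an edge
    intro a b c hab hca hcb hmem
    by_cases ha : a ∈ A
    · by_cases hb : b ∈ A
      · rw [hPA a ha, hPA b hb] at hmem
        have hab' : (G.induce A).Adj ⟨a, ha⟩ ⟨b, hb⟩ := hab
        by_cases hc : c ∈ A
        · rw [hPA c hc] at hmem
          exact hp.2.1 _ _ ⟨c, hc⟩ hab' (fun h => hca (congrArg Subtype.val h))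
            (fun h => hcb (congrArg Subtype.val h)) hmem
        · exact (hBv c hc).2 _ _ hab' hmem
      · obtain ⟨rfl, rfl⟩ := hcr a ha b hb hab
        by_cases hc : c ∈ A
        · rcases hbr _ hmem with h1 | ⟨s, hs0, hs1, h1⟩
          · rw [hPA c hc] at h1
            exact hca (congrArg Subtype.val (hp.1 h1))
          · rw [hPA c hc] at h1
            exact (hbrpt s hs0 hs1).1 _ h1.symm
        · exact hbrB hab c c hc hc hcb hcb _ (left_mem_segment ℝ _ _) hmem
    · by_cases hb : b ∈ A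
      · obtain ⟨rfl, rfl⟩ := hcr b hb a ha hab.symm
        rw [segment_symm] at hmem
        by_cases hc : c ∈ A
        · rcases hbr _ hmem with h1 | ⟨s, hs0, hs1, h1⟩
          · rw [hPA c hc] at h1
            exact hcb (congrArg Subtype.val (hp.1 h1))
          · rw [hPA c hc] at h1
            exact (hbrpt s hs0 hs1).1 _ h1.symm
        · exact hbrB hab.symm c c hc hc hca hca _ (left_mem_segment ℝ _ _) hmem
      · by_cases hc : c ∈ A
        · rw [hPA c hc] at hmem
          exact (hBpt a b ha hb _ hmem).1 _ rfl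
        · exact hsim.2.1 ⟨a, ha⟩ ⟨b, hb⟩ ⟨c, hc⟩ hab (fun h => hca (congrArg Subtype.val h))
            (fun h => hcb (congrArg Subtype.val h)) hmem
  · -- crossings
    -- edges in the first part and others
    have hAB : ∀ a b c c' : V, a ∈ A → b ∈ A → c ∉ A → c' ∉ A → G.Adj a b →
        ¬ (segment ℝ (P a) (P b) ∩ segment ℝ (P c) (P c')).Nonempty := by
      rintro a b c c' ha hb hc hc' hab ⟨x, hx1, hx2⟩
      rw [hPA a ha, hPA b hb] at hx1
      exact (hBpt c c' hc hc' x hx2).2 ⟨a, ha⟩ ⟨b, hb⟩ hab hx1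
    have hAbr : ∀ a b : V, a ∈ A → b ∈ A → a ≠ u → b ≠ u → G.Adj a b →
        ¬ (segment ℝ (P a) (P b) ∩ segment ℝ (P u) (P v)).Nonempty := by
      rintro a b ha hb hau hbu hab ⟨x, hx1, hx2⟩
      rw [hPA a ha, hPA b hb] at hx1
      rcases hbr x hx2 with h1 | ⟨s, hs0, hs1, h1⟩
      · rw [h1] at hx1
        exact hp.2.1 ⟨a, ha⟩ ⟨b, hb⟩ ⟨u, hu⟩ hab (fun h => hau (congrArg Subtype.val h).symm)
          (fun h => hbu (congrArg Subtype.val h).symm) hx1
      · rw [h1] at hx1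
        exact (hbrpt s hs0 hs1).2 ⟨a, ha⟩ ⟨b, hb⟩ hab hx1
    intro a b c c' hab hcc hac hac' hbc hbc' hne
    have hcomm : ∀ {S T : Set (ℝ × ℝ)}, (S ∩ T).Nonempty → (T ∩ S).Nonempty := by
      intro S T h
      rwa [Set.inter_comm]
    by_cases ha : a ∈ A
    · by_cases hb : b ∈ A
      · by_cases hc : c ∈ A
        · by_cases hc' : c' ∈ A
          · have h1 := hp.2.2 ⟨a, ha⟩ ⟨b, hb⟩ ⟨c, hc⟩ ⟨c', hc'⟩ hab hcc
              (fun h => hac (congrArg Subtype.val h)) (fun h => hac' (congrArg Subtype.val h))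
              (fun h => hbc (congrArg Subtype.val h)) (fun h => hbc' (congrArg Subtype.val h))
            rw [hPA a ha, hPA b hb, hPA c hc, hPA c' hc'] at hne ⊢
            exact h1 hne
          · obtain ⟨rfl, rfl⟩ := hcr c hc c' hc' hcc
            exact absurd hne (hAbr a b ha hb hac hbc hab)
        · by_cases hc' : c' ∈ A
          · obtain ⟨rfl, rfl⟩ := hcr c' hc' c hc hcc.symm
            rw [segment_symm ℝ (P c)] at hne
            exact absurd hne (hAbr a b ha hb hac' hbc' hab)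
          · exact absurd hne (hAB a b c c' ha hb hc hc' hab)
      · obtain ⟨rfl, rfl⟩ := hcr a ha b hb hab
        by_cases hc : c ∈ A
        · by_cases hc' : c' ∈ A
          · exact absurd (hcomm hne) (hAbr c c' hc hc' hac.symm hac'.symm hcc)
          · obtain ⟨rfl, rfl⟩ := hcr c hc c' hc' hcc
            exact absurd rfl hac
        · by_cases hc' : c' ∈ A
          · obtain ⟨rfl, rfl⟩ := hcr c' hc' c hc hcc.symm
            exact absurd rfl hac'
          · obtain ⟨x, hx1, hx2⟩ := hne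
            exact absurd hx1 (hbrB hab c c' hc hc' hbc.symm hbc'.symm x hx2)
    · by_cases hb : b ∈ A
      · obtain ⟨rfl, rfl⟩ := hcr b hb a ha hab.symm
        rw [segment_symm ℝ (P a)] at hne
        by_cases hc : c ∈ A
        · by_cases hc' : c' ∈ A
          · exact absurd (hcomm hne) (hAbr c c' hc hc' hbc.symm hbc'.symm hcc)
          · obtain ⟨rfl, rfl⟩ := hcr c hc c' hc' hcc
            exact absurd rfl hbc
        · by_cases hc' : c' ∈ A
          · obtain ⟨rfl, rfl⟩ := hcr c' hc' c hc hcc.symm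
            exact absurd rfl hbc'
          · obtain ⟨x, hx1, hx2⟩ := hne
            exact absurd hx1 (hbrB hab.symm c c' hc hc' hac.symm hac'.symm x hx2)
      · by_cases hc : c ∈ A
        · by_cases hc' : c' ∈ A
          · exact absurd (hcomm hne) (hAB c c' a b hc hc' ha hb hcc)
          · obtain ⟨rfl, rfl⟩ := hcr c hc c' hc' hcc
            obtain ⟨x, hx1, hx2⟩ := hne
            exact absurd hx2 (hbrB hcc a b ha hb hac' hbc' x hx1)
        · by_cases hc' : c' ∈ A
          · obtain ⟨rfl, rfl⟩ := hcr c' hc' c hc hcc.symm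
            rw [segment_symm ℝ (P c)] at hne
            obtain ⟨x, hx1, hx2⟩ := hne
            exact absurd hx2 (hbrB hcc.symm a b ha hb hac hbc x hx1)
          · exact hsim.2.2 ⟨a, ha⟩ ⟨b, hb⟩ ⟨c, hc⟩ ⟨c', hc'⟩ hab hcc
              (fun h => hac (congrArg Subtype.val h)) (fun h => hac' (congrArg Subtype.val h))
              (fun h => hbc (congrArg Subtype.val h)) (fun h => hbc' (congrArg Subtype.val h)) hne
  · -- exposed vertices
    intro r hr hexp x hx
    rw [hPA r hr]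
    by_cases hxA : x ∈ A
    · rw [hPA x hxA]
      exact hexp ⟨x, hxA⟩ (fun h => hx (congrArg Subtype.val h))
    · rw [hPB x hxA, dot_add, dot_smul]
      have h1 : dot d (p ⟨r, hr⟩) ≤ dot d (p ⟨u, hu⟩) := by
        by_cases hru : (⟨u, hu⟩ : A) = ⟨r, hr⟩
        · rw [hru]
        · exact (hexp _ hru).le
      have h2 := hρd _ (hsmall _ (hM ⟨x, hxA⟩))
      have : 0 < ε * dot d (e + ε • q' ⟨x, hxA⟩) := by positivity
      linarith

end Pool.Agent.Lib.MP_a17342_co.Red
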