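import Pool.Agent.Lib.MP_a17342_co.Red.Count

/-!
# Reductions for RAC drawings: the matching covering all vertices of degree three
-/

set_option autoImplicit false

namespace Pool.Agent.Lib.MP_a17342_co.Red

/-- auxiliary graph: the vertices of degree at most two (and one more vertex for parity) form a
clique, the edges at `R` are deleted -/
def auxG {V : Type*} (G : SimpleGraph V) (R : Set V) (k : ℕ) : SimpleGraph (V ⊕ Fin k) where
  Adj p q := p ≠ q ∧ (((∀ v, p = Sum.inl v → (G.neighborSet v).ncard ≤ 2) ∧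
    (∀ v, q = Sum.inl v → (G.neighborSet v).ncard ≤ 2)) ∨
    ∃ x y, p = Sum.inl x ∧ q = Sum.inl y ∧ x ∉ R ∧ y ∉ R ∧ G.Adj x y)
  symm := by
    constructor
    rintro p q ⟨h1, ⟨h2, h3⟩ | ⟨x, y, h2, h3, h4, h5, h6⟩⟩
    · exact ⟨h1.symm, Or.inl ⟨h3, h2⟩⟩
    · exact ⟨h1.symm, Or.inr ⟨y, x, h3, h2, h5, h4, h6.symm⟩⟩
  loopless := ⟨fun p h => h.1 rfl⟩

theorem no_violator {V : Type*} [Finite V] (G : SimpleGraph V) (hG : Subcubic G)
    (hcut : NoCut G) (R : Set V) (hR : R.ncard ≤ 1) (hR2 : ∀ r ∈ R, (G.neighborSet r).ncard ≤ 2)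
    (k : ℕ) (hk : k = Nat.card V % 2) (U : Set (V ⊕ Fin k)) :
    ¬ (auxG G R k).IsTutteViolator U := by
  classical
  have : Fintype V := Fintype.ofFinite V
  intro hviol
  set H := auxG G R k with hH
  unfold SimpleGraph.IsTutteViolator at hviol
  set Y := ((⊤ : H.Subgraph).deleteVerts U).verts with hY
  set D := ((⊤ : H.Subgraph).deleteVerts U).coe with hD
  have hYU : ∀ x, x ∈ Y ↔ x ∉ U := by
    intro x
    simp [hY]
  have hadj : ∀ a b : Y, H.Adj a.1 b.1 → D.Adj a b := by
    intro a b hab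
    simp only [hD, SimpleGraph.Subgraph.coe_adj, SimpleGraph.Subgraph.deleteVerts_adj,
      SimpleGraph.Subgraph.verts_top, Set.mem_univ, true_and, SimpleGraph.Subgraph.top_adj]
    exact ⟨(hYU _).1 a.2, (hYU _).1 b.2, hab⟩
  -- parity
  have hpar : D.oddComponents.ncard ≠ U.ncard + 1 := by
    intro h
    have h1 : Odd D.oddComponents.ncard ↔ Odd (Nat.card Y) := D.odd_ncard_oddComponents
    have h2 : Nat.card Y + U.ncard = Nat.card V + k := by
      have h3 : Nat.card Y = (Uᶜ).ncard := by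
        have : Y = Uᶜ := by
          ext x
          rw [hYU]
          rfl
        rw [Nat.card_coe_set_eq, this]
      have h4 := Set.ncard_add_ncard_compl U
      have h5 : Nat.card (V ⊕ Fin k) = Nat.card V + k := by
        rw [Nat.card_sum, Nat.card_fin]
      omega
    rw [h, Nat.odd_iff, Nat.odd_iff] at h1
    omega
  have hge : U.ncard + 2 ≤ D.oddComponents.ncard := by omega
  -- components meeting the clique
  let Q : D.ConnectedComponent → Prop := fun c =>
    ∃ a : Y, D.connectedComponentMk a = c ∧ ∀ v, a.1 = Sum.inl v → (G.neighborSet v).ncard ≤ 2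
  have hQ : {c | Q c}.ncard ≤ 1 := by
    rw [Set.ncard_le_one (Set.toFinite _)]
    rintro c ⟨a, rfl, ha⟩ c' ⟨b, rfl, hb⟩
    by_cases hab : a = b
    · rw [hab]
    · rw [SimpleGraph.ConnectedComponent.eq]
      exact (hadj a b ⟨fun h => hab (Subtype.ext h), Or.inl ⟨ha, hb⟩⟩).reachable
  let S : Finset D.ConnectedComponent :=
    (Set.toFinite (D.oddComponents \ {c | Q c})).toFinset
  have hS : ∀ c, c ∈ S ↔ Odd c.supp.ncard ∧ ¬ Q c := by
    intro c
    simp only [S, Set.Finite.mem_toFinset]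
    rfl
  have hScard : U.ncard + 1 ≤ S.card := by
    have h1 : S.card = (D.oddComponents \ {c | Q c}).ncard := by
      rw [Set.ncard_eq_toFinset_card _ (Set.toFinite _)]
    have h2 := Set.ncard_le_ncard_diff_add_ncard D.oddComponents {c | Q c} (Set.toFinite _)
    omega
  -- vertices of a component
  let K : D.ConnectedComponent → Finset V := fun c =>
    (Set.toFinite {x : V | ∃ a : Y, a.1 = Sum.inl x ∧ D.connectedComponentMk a = c}).toFinset
  have hK : ∀ c x, x ∈ K c ↔ ∃ a : Y, a.1 = Sum.inl x ∧ D.connectedComponentMk a = c := by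
    intro c x
    simp only [K, Set.Finite.mem_toFinset]
    rfl
  have hKcard : ∀ c ∈ S, (K c).card = c.supp.ncard := by
    intro c hc
    have hnq := ((hS c).1 hc).2
    have h1 : (K c).card =
        ({x : V | ∃ a : Y, a.1 = Sum.inl x ∧ D.connectedComponentMk a = c}).ncard := by
      rw [Set.ncard_eq_toFinset_card _ (Set.toFinite _)]
    rw [h1]
    refine Set.ncard_congr (fun x hx => hx.choose) ?_ ?_ ?_
    · intro x hx
      exact hx.choose_spec.2
    · intro x y hx hy h
      have h2 := hx.choose_spec.1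
      have h3 := hy.choose_spec.1
      have h4 : hx.choose.1 = hy.choose.1 := congrArg Subtype.val h
      rw [h2, h3] at h4
      exact Sum.inl_injective h4
    · intro a ha
      have ha' : D.connectedComponentMk a = c := ha
      rcases ha1 : a.1 with x | j
      · refine ⟨x, ⟨a, ha1, ha'⟩, ?_⟩
        apply Subtype.ext
        have h2 : ∃ b : Y, b.1 = Sum.inl x ∧ D.connectedComponentMk b = c := ⟨a, ha1, ha'⟩
        exact h2.choose_spec.1.trans ha1.symm
      · exfalso
        apply hnq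
        refine ⟨a, ha', ?_⟩
        intro v hv
        rw [ha1] at hv
        exact absurd hv (by simp)
  have hdeg : ∀ v, G.degree v = (G.neighborSet v).ncard := by
    intro v
    rw [← SimpleGraph.card_neighborFinset_eq_degree, Set.ncard_eq_toFinset_card',
      SimpleGraph.neighborFinset]
  let U' : Finset V := (Set.toFinite {x : V | (Sum.inl x : V ⊕ Fin k) ∈ U}).toFinset
  have hU' : ∀ x, x ∈ U' ↔ (Sum.inl x : V ⊕ Fin k) ∈ U := by
    intro x
    simp only [U', Set.Finite.mem_toFinset]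
    rfl
  have hU'card : U'.card ≤ U.ncard := by
    have h1 : U'.card = ({x : V | (Sum.inl x : V ⊕ Fin k) ∈ U}).ncard := by
      rw [Set.ncard_eq_toFinset_card _ (Set.toFinite _)]
    rw [h1]
    exact Set.ncard_le_ncard_of_injOn (fun x => Sum.inl x) (fun x hx => hx)
      (fun x _ y _ h => Sum.inl_injective h) (Set.toFinite _)
  let R' : Finset V := (Set.toFinite R).toFinset
  have hR' : ∀ x, x ∈ R' ↔ x ∈ R := by
    intro x
    simp only [R', Set.Finite.mem_toFinset]
  have hdegK : ∀ c ∈ S, ∀ x ∈ K c, G.degree x = 3 := by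
    intro c hc x hx
    have hnq := ((hS c).1 hc).2
    obtain ⟨a, ha, hac⟩ := (hK c x).1 hx
    have h1 := hG x
    rw [hdeg]
    by_contra h2
    apply hnq
    refine ⟨a, hac, ?_⟩
    intro v hv
    rw [ha] at hv
    have h3 := Sum.inl_injective hv
    rw [← h3]
    omega
  have hcount := count_le G hcut (fun v => by rw [hdeg]; exact hG v) S K ?_ ?_ hdegK R' U' ?_ ?_ ?_
  · omega
  · intro c hc c' hc' hne
    rw [Finset.disjoint_left]
    intro x hx hx'
    obtain ⟨a, ha, hac⟩ := (hK c x).1 hx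
    obtain ⟨b, hb, hbc⟩ := (hK c' x).1 hx'
    have h1 : a = b := Subtype.ext (ha.trans hb.symm)
    rw [h1] at hac
    exact hne (hac.symm.trans hbc)
  · intro c hc
    rw [hKcard c hc]
    exact ((hS c).1 hc).1
  · have h1 : R'.card = R.ncard := by
      rw [Set.ncard_eq_toFinset_card _ (Set.toFinite _)]
    rw [h1]
    exact hR
  · intro r hr
    rw [hdeg]
    exact hR2 r ((hR' r).1 hr)
  · intro c hc x hx y hy hxy
    by_contra hcon
    push Not at hcon
    rw [hR', hU'] at hcon
    apply hy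
    obtain ⟨a, ha, hac⟩ := (hK c x).1 hx
    have hxR : x ∉ R := by
      intro h
      have h1 := hdegK c hc x hx
      rw [hdeg] at h1
      have h2 := hR2 x h
      omega
    rw [hK]
    refine ⟨⟨Sum.inl y, (hYU _).2 hcon.2⟩, rfl, ?_⟩
    rw [← hac, SimpleGraph.ConnectedComponent.eq]
    refine (hadj _ _ ⟨?_, Or.inr ⟨y, x, rfl, ha, hcon.1, hxR, hxy.symm⟩⟩).reachable
    rw [ha]
    intro h
    exact hxy.ne (Sum.inl_injective h).symm

theorem exists_matching {V : Type*} [Finite V] (G : SimpleGraph V) (hG : Subcubic G)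
    (hcut : NoCut G) (R : Set V) (hR : R.ncard ≤ 1)
    (hR2 : ∀ r ∈ R, (G.neighborSet r).ncard ≤ 2) :
    ∃ n : V → V, (∀ v, n (n v) = v) ∧ (∀ v, n v ≠ v → G.Adj v (n v)) ∧
      (∀ v, n v = v → (G.neighborSet v).ncard ≤ 2) ∧ ∀ r ∈ R, n r = r := by
  classical
  have : Fintype V := Fintype.ofFinite V
  obtain ⟨M, hM⟩ := (SimpleGraph.tutte (G := auxG G R (Nat.card V % 2))).2
    (no_violator G hG hcut R hR hR2 _ rfl)
  rw [SimpleGraph.Subgraph.isPerfectMatching_iff] at hM
  choose m hm1 hm2 using hM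
  simp only at hm2
  have hmm : ∀ p, m (m p) = p := fun p => (hm2 (m p) p (hm1 p).symm).symm
  let P : V → V → Prop := fun v w => m (Sum.inl v) = Sum.inl w ∧ v ∉ R ∧ w ∉ R ∧ G.Adj v w
  let n : V → V := fun v => if h : ∃ w, P v w then h.choose else v
  have hn1 : ∀ v w, P v w → n v = w := by
    intro v w h
    have h1 : ∃ w, P v w := ⟨w, h⟩
    have h2 : n v = h1.choose := dif_pos h1
    have h3 := h1.choose_spec.1
    rw [h.1] at h3
    rw [h2]
    exact (Sum.inl_injective h3).symm
  have hn2 : ∀ v, (¬ ∃ w, P v w) → n v = v := fun v h => dif_neg h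
  have hPsymm : ∀ v w, P v w → P w v := by
    rintro v w ⟨h1, h2, h3, h4⟩
    refine ⟨?_, h3, h2, h4.symm⟩
    rw [← h1]
    exact hmm _
  refine ⟨n, ?_, ?_, ?_, ?_⟩
  · intro v
    by_cases h : ∃ w, P v w
    · obtain ⟨w, hw⟩ := h
      rw [hn1 v w hw, hn1 w v (hPsymm v w hw)]
    · rw [hn2 v h, hn2 v h]
  · intro v hv
    by_cases h : ∃ w, P v w
    · obtain ⟨w, hw⟩ := h
      rw [hn1 v w hw]
      exact hw.2.2.2
    · exact absurd (hn2 v h) hv
  · intro v hv
    have h1 := (hm1 (Sum.inl v)).adj_sub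
    rcases h1 with ⟨h2, ⟨h3, h4⟩ | ⟨x, y, h3, h4, h5, h6, h7⟩⟩
    · exact h3 v rfl
    · have h8 : v = x := Sum.inl_injective h3
      subst h8
      have h9 : P v y := ⟨h4, h5, h6, h7⟩
      rw [hn1 v y h9] at hv
      exact absurd hv.symm h7.ne
  · intro r hr
    apply hn2
    rintro ⟨w, hw⟩
    exact hw.2.1 hr

end Pool.Agent.Lib.MP_a17342_co.Red
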