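import Pool.Agent.Lib.MP_a17342_co.Red.Glue

/-!
# Reductions for RAC drawings: blowing up a triangle
-/

set_option autoImplicit false

open Filter Topology

namespace Pool.Agent.Lib.MP_a17342_co.Red

/-- `P` is a drawing of the graph obtained by collapsing `T` to one vertex, placed at `t`. -/
structure Collapsed {V : Type*} (G : SimpleGraph V) (T : Set V) (P : V → ℝ × ℝ) (t : ℝ × ℝ) :
    Prop where
  inT : ∀ x ∈ T, P x = t
  notT : ∀ x, x ∉ T → P x ≠ t
  inj : ∀ x y, P x = P y → x ∉ T → x = y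
  vert : ∀ a b c, G.Adj a b → ¬ (a ∈ T ∧ b ∈ T) → P c ∈ segment ℝ (P a) (P b) →
    P c = P a ∨ P c = P b
  cross : ∀ a b c d, G.Adj a b → G.Adj c d → ¬ (a ∈ T ∧ b ∈ T) → ¬ (c ∈ T ∧ d ∈ T) →
    P a ≠ P c → P a ≠ P d → P b ≠ P c → P b ≠ P d →
    (segment ℝ (P a) (P b) ∩ segment ℝ (P c) (P d)).Nonempty → dot (P b - P a) (P d - P c) = 0

theorem dot_comm (x y : ℝ × ℝ) : dot x y = dot y x := by
  simp only [dot]
  ring

/-- the local picture at the collapsed vertex gives a drawing -/
theorem blow {V : Type*} [Finite V] {G : SimpleGraph V} {T : Set V} {P : V → ℝ × ℝ} {t : ℝ × ℝ}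
    (hP : Collapsed G T P t) (u : V → ℝ × ℝ) (k : V → ℝ)
    (hu0 : ∀ x, x ∉ T → u x = 0) (hk : ∀ x, 0 ≤ k x)
    (hT3 : ∀ a ∈ T, ∀ b ∈ T, ∀ c ∈ T, ∀ d ∈ T, a ≠ b → c ≠ d → a ≠ c → a ≠ d → b ≠ c → b ≠ d →
      False)
    (L1 : ∀ x ∈ T, ∀ y, y ∉ T → G.Adj x y → u x = k x • (P y - t))
    (L2 : ∀ x ∈ T, ∀ x' ∈ T, ∀ x'' ∈ T, x' ≠ x → x'' ≠ x → ∀ y, y ∉ T → G.Adj x y →
      ∀ s, k x ≤ s → ∀ l : ℝ, 0 ≤ l → l ≤ 1 → s • (P y - t) ≠ u x' + l • (u x'' - u x'))
    (L3 : ∀ x ∈ T, ∀ x' ∈ T, ∀ x'' ∈ T, x' ≠ x → x'' ≠ x → ∀ l : ℝ, 0 ≤ l → l ≤ 1 →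
      u x ≠ u x' + l • (u x'' - u x'))
    (L4 : ∀ x ∈ T, ∀ x' ∈ T, x ≠ x' → ∀ y, y ∉ T → ∀ y', y' ∉ T → G.Adj x y → G.Adj x' y' →
      ∀ s s', k x ≤ s → k x' ≤ s' → s • (P y - t) ≠ s' • (P y' - t)) :
    ∀ᶠ ε in 𝓝[>] (0 : ℝ), IsRAC G (fun x => P x + ε • u x) := by
  classical
  -- ball
  obtain ⟨δ, hδ, hball⟩ : ∃ δ : ℝ, 0 < δ ∧ ∀ w : ℝ × ℝ, ‖w‖ < δ → (∀ x, x ∉ T → t + w ≠ P x) ∧
      ∀ x y, T.Nonempty → x ∉ T → y ∉ T → G.Adj x y → t + w ∉ segment ℝ (P x) (P y) := by
    have hc : Continuous fun w : ℝ × ℝ => t + w := by fun_prop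
    have h1 : ∀ᶠ w : ℝ × ℝ in 𝓝 0, ∀ x, x ∉ T → t + w ≠ P x := by
      rw [eventually_all]
      intro x
      by_cases hx : x ∈ T
      · filter_upwards with w h
        exact absurd hx h
      · have h2 : (fun w : ℝ × ℝ => t + w) 0 ≠ P x := by
          simp only [add_zero]
          exact (hP.notT x hx).symm
        filter_upwards [hc.continuousAt.eventually_ne h2] with w hw _
        exact hw
    have h2 : ∀ᶠ w : ℝ × ℝ in 𝓝 0, ∀ x y, T.Nonempty → x ∉ T → y ∉ T → G.Adj x y →
        t + w ∉ segment ℝ (P x) (P y) := by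
      rw [eventually_all]
      intro x
      rw [eventually_all]
      intro y
      by_cases hxy : T.Nonempty ∧ x ∉ T ∧ y ∉ T ∧ G.Adj x y
      · obtain ⟨⟨z, hz⟩, hx, hy, hadj⟩ := hxy
        have h3 : IsClosed (segment ℝ (P x) (P y)) := by
          have h31 : IsCompact (segment ℝ (P x) (P y)) := by
            rw [segment_eq_image']
            exact isCompact_Icc.image (by fun_prop)
          exact h31.isClosed
        have h4 : t ∉ segment ℝ (P x) (P y) := by
          intro h
          rw [← hP.inT z hz] at h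
          rcases hP.vert x y z hadj (fun h => hx h.1) h with h5 | h5
          · exact hP.notT x hx (h5 ▸ hP.inT z hz)
          · exact hP.notT y hy (h5 ▸ hP.inT z hz)
        have h5 : (fun w : ℝ × ℝ => t + w) 0 ∈ (segment ℝ (P x) (P y))ᶜ := by
          simp only [add_zero]
          exact h4
        filter_upwards [hc.continuousAt.eventually (h3.isOpen_compl.mem_nhds h5)] with w hw _ _ _ _
        exact hw
      · filter_upwards with w h3 h4 h5 h6
        exact absurd ⟨h3, h4, h5, h6⟩ hxy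
    obtain ⟨δ, hδ, h⟩ := Metric.eventually_nhds_iff.1 (h1.and h2)
    exact ⟨δ, hδ, fun w hw => h (by rw [dist_zero_right]; exact hw)⟩
  -- bounds
  obtain ⟨M, hM0, hM⟩ : ∃ M : ℝ, 0 ≤ M ∧ ∀ x, ‖u x‖ ≤ M := by
    obtain ⟨M, hM⟩ := (Set.finite_range fun x => ‖u x‖).bddAbove
    exact ⟨max M 0, le_max_right _ _, fun x => (hM ⟨x, rfl⟩).trans (le_max_left _ _)⟩
  obtain ⟨K, hK0, hK⟩ : ∃ K : ℝ, 0 ≤ K ∧ ∀ x, k x ≤ K := by
    obtain ⟨K, hK⟩ := (Set.finite_range fun x => k x).bddAbove
    exact ⟨max K 0, le_max_right _ _, fun x => (hK ⟨x, rfl⟩).trans (le_max_left _ _)⟩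
  have hεpos : 0 < min (δ / (M + 1)) (1 / (K + 1)) := by positivity
  filter_upwards [Ioo_mem_nhdsGT hεpos] with ε hε
  obtain ⟨hε0, hε1⟩ := hε
  have hεM : ε * M < δ := by
    have h1 : ε < δ / (M + 1) := hε1.trans_le (min_le_left _ _)
    rw [lt_div_iff₀ (by positivity)] at h1
    nlinarith
  have hεK : ∀ x, ε * k x < 1 := by
    intro x
    have h1 : ε < 1 / (K + 1) := hε1.trans_le (min_le_right _ _)
    rw [lt_div_iff₀ (by positivity)] at h1
    have := hK x
    nlinarith
  set Q : V → ℝ × ℝ := fun x => P x + ε • u x with hQ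
  have F1 : ∀ x, x ∉ T → Q x = P x := by
    intro x hx
    simp only [hQ, hu0 x hx, smul_zero, add_zero]
  have F2 : ∀ x ∈ T, Q x = t + ε • u x := by
    intro x hx
    simp only [hQ, hP.inT x hx]
  have Fs : ∀ y : ℝ × ℝ, ‖y‖ ≤ M → ‖ε • y‖ < δ := by
    intro y hy
    rw [norm_smul, Real.norm_eq_abs, abs_of_pos hε0]
    exact lt_of_le_of_lt (mul_le_mul_of_nonneg_left hy hε0.le) hεM
  have F3 : ∀ x ∈ T, ∀ x' ∈ T, ∀ z ∈ segment ℝ (Q x) (Q x'), ∃ l : ℝ, 0 ≤ l ∧ l ≤ 1 ∧
      z = t + ε • (u x + l • (u x' - u x)) ∧ ‖ε • (u x + l • (u x' - u x))‖ < δ := by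
    intro x hx x' hx' z hz
    obtain ⟨l, h0, h1, rfl⟩ := mem_seg hz
    refine ⟨l, h0, h1, ?_, Fs _ (norm_seg_le (hM _) (hM _) h0 h1)⟩
    rw [F2 x hx, F2 x' hx']
    ext <;> simp <;> ring
  have F4 : ∀ x ∈ T, ∀ y, y ∉ T → G.Adj x y → ∀ z ∈ segment ℝ (Q x) (Q y), ∃ s : ℝ, k x ≤ s ∧
      z = t + (ε * s) • (P y - t) ∧ z ∈ segment ℝ (P x) (P y) := by
    intro x hx y hy hxy z hz
    obtain ⟨l, h0, h1, rfl⟩ := mem_seg hz
    have h2 := hεK x
    have h3 := hk x
    have h4 : Q x + l • (Q y - Q x) = t + (ε * k x + l * (1 - ε * k x)) • (P y - t) := by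
      rw [F2 x hx, F1 y hy, L1 x hx y hy hxy]
      ext <;> simp <;> ring
    have h5 : 0 ≤ l * (1 - ε * k x) := mul_nonneg h0 (by linarith)
    have h6 : 0 ≤ ε * k x := by positivity
    refine ⟨(ε * k x + l * (1 - ε * k x)) / ε, ?_, ?_, ?_⟩
    · rw [le_div_iff₀ hε0]
      linarith
    · rw [h4, mul_div_cancel₀ _ hε0.ne']
    · rw [h4, hP.inT x hx]
      refine seg_mem (by linarith) ?_
      nlinarith
  have hinjP : ∀ x y, x ∉ T → x ≠ y → P x ≠ P y := fun x y hx hxy h => hxy (hP.inj x y h hx)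
  refine ⟨?_, ?_, ?_⟩
  · -- injectivity
    intro x y hxy
    by_contra hne
    by_cases hx : x ∈ T
    · by_cases hy : y ∈ T
      · rw [F2 x hx, F2 y hy] at hxy
        have h1 := smul_right_injective (ℝ × ℝ) hε0.ne' (add_left_cancel hxy)
        refine L3 x hx y hy y hy (Ne.symm hne) (Ne.symm hne) 0 le_rfl zero_le_one ?_
        rw [zero_smul, add_zero]
        exact h1
      · rw [F2 x hx, F1 y hy] at hxy
        exact (hball _ (Fs _ (hM x))).1 y hy hxy
    · by_cases hy : y ∈ T
      · rw [F2 y hy, F1 x hx] at hxy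
        exact (hball _ (Fs _ (hM y))).1 x hx hxy.symm
      · rw [F1 x hx, F1 y hy] at hxy
        exact hne (hP.inj x y hxy hx)
  · -- vertices on edges
    have outer : ∀ a b c, a ∈ T → b ∉ T → G.Adj a b → c ≠ a → c ≠ b →
        Q c ∉ segment ℝ (Q a) (Q b) := by
      intro a b c ha hb hab hca hcb hmem
      obtain ⟨s, hs, hs2, hs3⟩ := F4 a ha b hb hab _ hmem
      by_cases hc : c ∈ T
      · rw [F2 c hc] at hs2
        refine L2 a ha c hc c hc hca hca b hb hab s hs 0 le_rfl zero_le_one ?_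
        rw [zero_smul, add_zero]
        have h1 := add_left_cancel hs2
        rw [mul_smul] at h1
        exact (smul_right_injective (ℝ × ℝ) hε0.ne' h1).symm
      · rw [F1 c hc] at hs3
        rcases hP.vert a b c hab (fun h => hb h.2) hs3 with h | h
        · exact hinjP c a hc hca h
        · exact hinjP c b hc hcb h
    intro a b c hab hca hcb hmem
    by_cases ha : a ∈ T
    · by_cases hb : b ∈ T
      · obtain ⟨l, h0, h1, h2, h3⟩ := F3 a ha b hb _ hmem
        by_cases hc : c ∈ T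
        · rw [F2 c hc] at h2
          have h4 := smul_right_injective (ℝ × ℝ) hε0.ne' (add_left_cancel h2)
          exact L3 c hc a ha b hb hca.symm hcb.symm l h0 h1 h4
        · rw [F1 c hc] at h2
          exact (hball _ h3).1 c hc h2.symm
      · exact outer a b c ha hb hab hca hcb hmem
    · by_cases hb : b ∈ T
      · rw [segment_symm] at hmem
        exact outer b a c hb ha hab.symm hcb hca hmem
      · rw [F1 a ha, F1 b hb] at hmem
        by_cases hc : c ∈ T
        · rw [F2 c hc] at hmem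
          exact (hball _ (Fs _ (hM c))).2 a b ⟨c, hc⟩ ha hb hab hmem
        · rw [F1 c hc] at hmem
          rcases hP.vert a b c hab (fun h => ha h.1) hmem with h | h
          · exact hinjP c a hc hca h
          · exact hinjP c b hc hcb h
  · -- crossings
    have norm : ∀ a b c d, (b ∈ T → a ∈ T) → (d ∈ T → c ∈ T) → (c ∈ T → a ∈ T) →
        (a ∈ T → c ∈ T → d ∈ T → b ∈ T) → G.Adj a b → G.Adj c d →
        a ≠ c → a ≠ d → b ≠ c → b ≠ d →
        (segment ℝ (Q a) (Q b) ∩ segment ℝ (Q c) (Q d)).Nonempty →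
        dot (Q b - Q a) (Q d - Q c) = 0 := by
      rintro a b c d hba hdc hca hord hab hcd hac had hbc hbd ⟨z, hz1, hz2⟩
      by_cases ha : a ∈ T
      · by_cases hb : b ∈ T
        · obtain ⟨l, h0, h1, h2, h3⟩ := F3 a ha b hb _ hz1
          by_cases hc : c ∈ T
          · by_cases hd : d ∈ T
            · exact (hT3 a ha b hb c hc d hd hab.ne hcd.ne hac had hbc hbd).elim
            · obtain ⟨s, hs, hs2, hs3⟩ := F4 c hc d hd hcd _ hz2
              rw [h2] at hs2
              have h4 := add_left_cancel hs2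
              rw [mul_smul] at h4
              exact (L2 c hc a ha b hb hac hbc d hd hcd s hs l h0 h1
                (smul_right_injective (ℝ × ℝ) hε0.ne' h4).symm).elim
          · have hd : d ∉ T := fun h => hc (hdc h)
            rw [F1 c hc, F1 d hd, h2] at hz2
            exact ((hball _ h3).2 c d ⟨a, ha⟩ hc hd hcd hz2).elim
        · obtain ⟨s, hs, hs2, hs3⟩ := F4 a ha b hb hab _ hz1
          by_cases hc : c ∈ T
          · have hd : d ∉ T := fun h => hb (hord ha hc h)
            obtain ⟨s', hs', hs2', hs3'⟩ := F4 c hc d hd hcd _ hz2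
            rw [hs2] at hs2'
            have h4 := add_left_cancel hs2'
            rw [mul_smul, mul_smul] at h4
            exact (L4 a ha c hc hac b hb d hd hab hcd s s' hs hs'
              (smul_right_injective (ℝ × ℝ) hε0.ne' h4)).elim
          · have hd : d ∉ T := fun h => hc (hdc h)
            have hz2' := hz2
            rw [F1 c hc, F1 d hd] at hz2'
            have h1 := hP.cross a b c d hab hcd (fun h => hb h.2) (fun h => hc h.1)
              (hinjP c a hc hac.symm).symm (hinjP d a hd had.symm).symm (hinjP b c hb hbc)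
              (hinjP b d hb hbd) ⟨z, hs3, hz2'⟩
            rw [F1 b hb, F1 c hc, F1 d hd, F2 a ha, L1 a ha b hb hab]
            rw [hP.inT a ha] at h1
            have h2 : P b - (t + ε • k a • (P b - t)) = (1 - ε * k a) • (P b - t) := by
              ext <;> simp <;> ring
            rw [h2, dot_comm, dot_smul, dot_comm, h1, mul_zero]
      · have hb : b ∉ T := fun h => ha (hba h)
        have hc : c ∉ T := fun h => ha (hca h)
        have hd : d ∉ T := fun h => hc (hdc h)
        rw [F1 a ha, F1 b hb] at hz1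
        rw [F1 c hc, F1 d hd] at hz2
        rw [F1 a ha, F1 b hb, F1 c hc, F1 d hd]
        exact hP.cross a b c d hab hcd (fun h => ha h.1) (fun h => hc h.1)
          (hinjP a c ha hac) (hinjP a d ha had) (hinjP b c hb hbc)
          (hinjP b d hb hbd) ⟨z, hz1, hz2⟩
    -- remove the normalisations
    have norm2 : ∀ a b c d, (b ∈ T → a ∈ T) → (d ∈ T → c ∈ T) → G.Adj a b → G.Adj c d →
        a ≠ c → a ≠ d → b ≠ c → b ≠ d →
        (segment ℝ (Q a) (Q b) ∩ segment ℝ (Q c) (Q d)).Nonempty →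
        dot (Q b - Q a) (Q d - Q c) = 0 := by
      intro a b c d hba hdc hab hcd hac had hbc hbd hne
      have hsw : (segment ℝ (Q c) (Q d) ∩ segment ℝ (Q a) (Q b)).Nonempty := by
        rwa [Set.inter_comm]
      by_cases h1 : (c ∈ T → a ∈ T) ∧ (a ∈ T → c ∈ T → d ∈ T → b ∈ T)
      · exact norm a b c d hba hdc h1.1 h1.2 hab hcd hac had hbc hbd hne
      · rw [dot_comm]
        refine norm c d a b hdc hba ?_ ?_ hcd hab hac.symm hbc.symm had.symm hbd.symm hsw
        · intro h
          by_contra h2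
          exact h1 ⟨fun _ => h, fun _ h3 => absurd h3 h2⟩
        · intro h2 h3 h4
          by_contra h5
          exact h1 ⟨fun _ => h3, fun _ _ _ => h4⟩
    have norm3 : ∀ a b c d, (d ∈ T → c ∈ T) → G.Adj a b → G.Adj c d →
        a ≠ c → a ≠ d → b ≠ c → b ≠ d →
        (segment ℝ (Q a) (Q b) ∩ segment ℝ (Q c) (Q d)).Nonempty →
        dot (Q b - Q a) (Q d - Q c) = 0 := by
      intro a b c d hdc hab hcd hac had hbc hbd hne
      by_cases h1 : b ∈ T → a ∈ T
      · exact norm2 a b c d h1 hdc hab hcd hac had hbc hbd hne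
      · push Not at h1
        rw [segment_symm] at hne
        have h2 := norm2 b a c d (fun _ => h1.1) hdc hab.symm hcd hbc hbd hac had hne
        have h3 : Q b - Q a = (-1 : ℝ) • (Q a - Q b) := by
          rw [neg_smul, one_smul, neg_sub]
        rw [h3, dot_comm, dot_smul, dot_comm, h2, mul_zero]
    intro a b c d hab hcd hac had hbc hbd hne
    have main : dot (Q b - Q a) (Q d - Q c) = 0 := by
      by_cases h1 : d ∈ T → c ∈ T
      · exact norm3 a b c d h1 hab hcd hac had hbc hbd hne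
      · push Not at h1
        rw [segment_symm ℝ (Q c)] at hne
        have h2 := norm3 a b d c (fun _ => h1.1) hab hcd.symm had hac hbd hbc hne
        have h3 : Q d - Q c = (-1 : ℝ) • (Q c - Q d) := by
          rw [neg_smul, one_smul, neg_sub]
        rw [h3, dot_smul, h2, mul_zero]
    exact main

/-- exposure is stable under small moves -/
theorem exp_small {V : Type*} [Finite V] {P u : V → ℝ × ℝ} {d : ℝ × ℝ} {r : V}
    (h : ∀ v, v ≠ r → dot d (P r) < dot d (P v)) :
    ∀ᶠ ε in 𝓝[>] (0 : ℝ), ExpD d (fun x => P x + ε • u x) r := by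
  unfold ExpD
  rw [eventually_all]
  intro v
  by_cases hv : v = r
  · filter_upwards with ε h1
    exact absurd hv h1
  · have hc : Continuous fun ε : ℝ => dot d (P v + ε • u v) - dot d (P r + ε • u r) := by
      unfold dot
      fun_prop
    have h0 : 0 < (fun ε : ℝ => dot d (P v + ε • u v) - dot d (P r + ε • u r)) 0 := by
      simp only [zero_smul, add_zero]
      linarith [h v hv]
    have h1 : ∀ᶠ ε in 𝓝 (0 : ℝ), 0 < dot d (P v + ε • u v) - dot d (P r + ε • u r) :=
      hc.continuousAt.eventually (lt_mem_nhds h0)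
    filter_upwards [nhdsWithin_le_nhds h1] with ε h2 _
    linarith

theorem crs_self (x : ℝ × ℝ) : crs x x = 0 := by
  simp only [crs]
  ring

theorem crs_comm (x y : ℝ × ℝ) : crs x y = - crs y x := by
  simp only [crs]
  ring

theorem smul_crs (x y : ℝ × ℝ) (t : ℝ) : crs (t • x) y = t * crs x y := by
  simp only [crs, Prod.smul_fst, Prod.smul_snd, smul_eq_mul]
  ring

theorem add_crs (x y z : ℝ × ℝ) : crs (x + y) z = crs x z + crs y z := by
  simp only [crs, Prod.fst_add, Prod.snd_add]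
  ring

/-- not positively parallel -/
def NPP (x y : ℝ × ℝ) : Prop :=
  ∀ s s' : ℝ, 0 ≤ s → 0 ≤ s' → s • x = s' • y → s = 0 ∧ s' = 0

/-- the third vector is not in the cone of the first two -/
def Good (x y z : ℝ × ℝ) : Prop :=
  crs x y ≠ 0 ∧ ∀ s l m : ℝ, 0 ≤ s → 0 ≤ l → 0 ≤ m → s • z = l • x + m • y → l = 0 ∧ m = 0

theorem NPP.symm {x y : ℝ × ℝ} (h : NPP x y) : NPP y x := by
  intro s s' h1 h2 h3
  obtain ⟨h4, h5⟩ := h s' s h2 h1 h3.symm
  exact ⟨h5, h4⟩

theorem npp_of_crs {x y : ℝ × ℝ} (h : crs x y ≠ 0) : NPP x y := by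
  intro s s' _ _ h3
  have h4 := congrArg (crs x) h3
  have h5 := congrArg (fun w => crs w y) h3
  simp only [crs_smul, smul_crs, crs_self, mul_zero] at h4 h5
  constructor
  · rcases mul_eq_zero.1 h5 with h | h'
    · exact h
    · exact absurd h' h
  · rcases mul_eq_zero.1 h4.symm with h | h'
    · exact h
    · exact absurd h' h

/-- parallel but not positively parallel: opposite -/
theorem opposite {x y : ℝ × ℝ} (hx : x ≠ 0) (hy : y ≠ 0) (h : NPP x y) (hc : crs x y = 0) :
    ∃ κ : ℝ, 0 < κ ∧ x = (-κ) • y := by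
  have hyy := dot_self_pos hy
  have h1 : x = (dot x y / dot y y) • y := by
    have h2 : dot y y • x = dot x y • y := by
      simp only [crs] at hc
      ext
      · simp only [dot, Prod.smul_fst, smul_eq_mul]
        linear_combination (y.2) * hc
      · simp only [dot, Prod.smul_snd, smul_eq_mul]
        linear_combination (-y.1) * hc
    rw [div_eq_inv_mul, mul_smul, ← h2, smul_smul, inv_mul_cancel₀ hyy.ne', one_smul]
  set τ := dot x y / dot y y with hτ
  rcases lt_trichotomy τ 0 with h2 | h2 | h2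
  · exact ⟨-τ, by linarith, by rw [neg_neg]; exact h1⟩
  · rw [h2, zero_smul] at h1
    exact absurd h1 hx
  · have := (h 1 τ zero_le_one h2.le (by rw [one_smul]; exact h1)).1
    exact absurd this one_ne_zero

theorem exists_good {x y z : ℝ × ℝ} (hx : x ≠ 0) (hy : y ≠ 0) (hz : z ≠ 0) (hxy : NPP x y)
    (hxz : NPP x z) (hyz : NPP y z) : Good x y z ∨ Good x z y ∨ Good y z x := by
  by_cases h1 : crs x y = 0
  · obtain ⟨κ, hκ, h2⟩ := opposite hx hy hxy h1
    have h3 : crs x z ≠ 0 := by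
      intro h3
      obtain ⟨κ', hκ', h4⟩ := opposite hx hz hxz h3
      have h5 : κ • y = κ' • z := by
        have : (-κ) • y = (-κ') • z := by rw [← h2, ← h4]
        rw [neg_smul, neg_smul, neg_inj] at this
        exact this
      exact hκ.ne' (hyz κ κ' hκ.le hκ'.le h5).1
    right
    left
    refine ⟨h3, fun s l m hs hl hm h4 => ?_⟩
    have h5 := congrArg (crs x) h4
    simp only [crs_smul, crs_add, crs_self, mul_zero, zero_add, h1] at h5
    have h6 : m = 0 := by
      rcases mul_eq_zero.1 h5.symm with h | h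
      · exact h
      · exact absurd h h3
    rw [h6, zero_smul, add_zero] at h4
    exact ⟨(hxy l s hl hs h4.symm).1, h6⟩
  · by_cases h2 : Good x y z
    · exact Or.inl h2
    · right
      left
      unfold Good at h2
      push Not at h2
      obtain ⟨s, l, m, hs, hl, hm, h3, h4⟩ := h2 h1
      have h5 : crs x z * s = m * crs x y := by
        have := congrArg (crs x) h3
        simp only [crs_smul, crs_add, crs_self, mul_zero, zero_add] at this
        linarith
      have h6 : crs y z * s = - (l * crs x y) := by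
        have := congrArg (crs y) h3
        simp only [crs_smul, crs_add, crs_self, mul_zero, add_zero] at this
        rw [crs_comm y x] at this
        linarith
      -- m ≠ 0
      have hm0 : m ≠ 0 := by
        intro h7
        rw [h7, zero_smul, add_zero] at h3
        exact h4 (hxz l s hl hs h3.symm).1 h7
      have hl0 : l ≠ 0 := by
        intro h7
        rw [h7, zero_smul, zero_add] at h3
        exact hm0 (hyz m s hm hs h3.symm).1
      have hs0 : s ≠ 0 := by
        intro h7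
        rw [h7, mul_zero] at h5
        rcases mul_eq_zero.1 h5.symm with h | h
        · exact hm0 h
        · exact h1 h
      have hxz0 : crs x z ≠ 0 := by
        intro h7
        rw [h7, zero_mul] at h5
        rcases mul_eq_zero.1 h5.symm with h | h
        · exact hm0 h
        · exact h1 h
      refine ⟨hxz0, fun s' l' m' hs' hl' hm' h7 => ?_⟩
      have h8 := congrArg (crs y) h7
      simp only [crs_smul, crs_add, crs_self, mul_zero] at h8
      rw [crs_comm y x] at h8
      -- 0 = l' * -crs x y + m' * crs y z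
      have h9 : (l' * s + m' * l) * crs x y = 0 := by
        have : (l' * s + m' * l) * crs x y = - s * (l' * - crs x y + m' * crs y z) := by
          linear_combination (m') * h6
        rw [this, ← h8, mul_zero]
      have h10 : l' * s + m' * l = 0 := by
        rcases mul_eq_zero.1 h9 with h | h
        · exact h
        · exact absurd h h1
      have hspos : 0 < s := lt_of_le_of_ne hs (Ne.symm hs0)
      have hlpos : 0 < l := lt_of_le_of_ne hl (Ne.symm hl0)
      constructor
      · by_contra h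
        have : 0 < l' := lt_of_le_of_ne hl' (Ne.symm h)
        have : 0 < l' * s := by positivity
        have : 0 ≤ m' * l := by positivity
        linarith
      · by_contra h
        have : 0 < m' := lt_of_le_of_ne hm' (Ne.symm h)
        have : 0 < m' * l := by positivity
        have : 0 ≤ l' * s := by positivity
        linarith

theorem Collapsed.npp {V : Type*} {G : SimpleGraph V} {T : Set V} {P : V → ℝ × ℝ} {t : ℝ × ℝ}
    (hP : Collapsed G T P t) {x x' y y' : V} (hx : x ∈ T) (hx' : x' ∈ T) (hy : y ∉ T)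
    (hy' : y' ∉ T) (h : G.Adj x y) (h' : G.Adj x' y') (hne : y ≠ y') :
    NPP (P y - t) (P y' - t) := by
  have aux : ∀ x y y' : V, x ∈ T → y ∉ T → y' ∉ T → G.Adj x y → y ≠ y' → ∀ s s' : ℝ, 0 < s →
      s ≤ s' → s • (P y - t) = s' • (P y' - t) → False := by
    intro x y y' hx hy hy' h hne s s' hs hss heq
    have hs' : 0 < s' := hs.trans_le hss
    have h1 : P y' = P x + (s / s') • (P y - P x) := by
      rw [hP.inT x hx]
      have h2 : (s / s') • (P y - t) = P y' - t := by
        rw [div_eq_inv_mul, mul_smul, heq, smul_smul, inv_mul_cancel₀ hs'.ne', one_smul]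
      rw [h2]
      abel
    have h3 : P y' ∈ segment ℝ (P x) (P y) := by
      rw [h1]
      exact seg_mem (by positivity) ((div_le_one hs').2 hss)
    rcases hP.vert x y y' h (fun h => hy h.2) h3 with h4 | h4
    · exact hP.notT y' hy' (h4.trans (hP.inT x hx))
    · exact hne (hP.inj y' y h4 hy').symm
  intro s s' hs hs' heq
  have hn : P y - t ≠ 0 := sub_ne_zero.2 (hP.notT y hy)
  have hn' : P y' - t ≠ 0 := sub_ne_zero.2 (hP.notT y' hy')
  rcases hs.eq_or_lt with h1 | h1
  · rw [← h1, zero_smul] at heq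
    rcases smul_eq_zero.1 heq.symm with h2 | h2
    · exact ⟨h1.symm, h2⟩
    · exact absurd h2 hn'
  · rcases hs'.eq_or_lt with h2 | h2
    · rw [← h2, zero_smul] at heq
      rcases smul_eq_zero.1 heq with h3 | h3
      · exact absurd h3 h1.ne'
      · exact absurd h3 hn
    · rcases le_total s s' with h3 | h3
      · exact (aux x y y' hx hy hy' h hne s s' h1 h3 heq).elim
      · exact (aux x' y' y hx' hy' hy h' hne.symm s' s h2 h3 heq.symm).elim

theorem three_elim {V : Type*} {T : Set V} {a b c : V} (hT : T = {a, b, c}) :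
    ∀ x ∈ T, ∀ y ∈ T, ∀ z ∈ T, ∀ w ∈ T, x ≠ y → z ≠ w → x ≠ z → x ≠ w → y ≠ z → y ≠ w →
      False := by
  subst hT
  intro x hx y hy z hz w hw h1 h2 h3 h4 h5 h6
  simp only [Set.mem_insert_iff, Set.mem_singleton_iff] at hx hy hz hw
  rcases hx with rfl | rfl | rfl <;> rcases hy with rfl | rfl | rfl <;>
    rcases hz with rfl | rfl | rfl <;> first
    | exact h1 rfl
    | exact h3 rfl
    | exact h5 rfl
    | (rcases hw with rfl | rfl | rfl <;> first
      | exact h4 rfl
      | exact h6 rfl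
      | exact h2 rfl)

theorem pair_case {V : Type*} [Finite V] {G : SimpleGraph V} {T : Set V} {P : V → ℝ × ℝ}
    {t : ℝ × ℝ} (hP : Collapsed G T P t) {a b c : V} {α β : ℝ × ℝ} (hT : T = {a, b, c})
    (hab : a ≠ b) (hac : a ≠ c) (hbc : b ≠ c)
    (ha : ∀ y, y ∉ T → G.Adj a y → P y - t = α) (hb : ∀ y, y ∉ T → G.Adj b y → P y - t = β)
    (hcr : crs α β ≠ 0)
    (hc : ∀ y, y ∉ T → G.Adj c y → Good α β (P y - t) ∧ NPP α (P y - t) ∧ NPP β (P y - t)) :
    ∃ u : V → ℝ × ℝ, u a = α ∧ u b = β ∧ u c = 0 ∧ (∀ x, x ∉ T → u x = 0) ∧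
      ∀ᶠ ε in 𝓝[>] (0 : ℝ), IsRAC G (fun x => P x + ε • u x) := by
  classical
  let u : V → ℝ × ℝ := fun x => if x = a then α else if x = b then β else 0
  let k : V → ℝ := fun x => if x = a ∨ x = b then 1 else 0
  have ua : u a = α := if_pos rfl
  have ub : u b = β := by simp only [u, if_neg hab.symm, if_true]
  have uc : u c = 0 := by simp only [u, if_neg hac.symm, if_neg hbc.symm]
  have ka : k a = 1 := if_pos (Or.inl rfl)
  have kb : k b = 1 := if_pos (Or.inr rfl)
  have kc : k c = 0 := if_neg (by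
    rintro (h | h)
    · exact hac h.symm
    · exact hbc h.symm)
  have hmem : ∀ x, x ∈ T → x = a ∨ x = b ∨ x = c := by
    intro x hx
    rw [hT] at hx
    simpa using hx
  have hu0 : ∀ x, x ∉ T → u x = 0 := by
    intro x hx
    have h1 : x ≠ a := fun h => hx (by rw [hT, h]; simp)
    have h2 : x ≠ b := fun h => hx (by rw [hT, h]; simp)
    simp only [u, if_neg h1, if_neg h2]
  have hua : ∀ x ∈ T, x ≠ a → ∃ τ : ℝ, u x = τ • β := by
    intro x hx hxa
    rcases hmem x hx with rfl | rfl | rfl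
    · exact absurd rfl hxa
    · exact ⟨1, by rw [ub, one_smul]⟩
    · exact ⟨0, by rw [uc, zero_smul]⟩
  have hub : ∀ x ∈ T, x ≠ b → ∃ τ : ℝ, u x = τ • α := by
    intro x hx hxa
    rcases hmem x hx with rfl | rfl | rfl
    · exact ⟨1, by rw [ua, one_smul]⟩
    · exact absurd rfl hxa
    · exact ⟨0, by rw [uc, zero_smul]⟩
  have huc : ∀ x ∈ T, x ≠ c → ∃ τ : ℝ, 0 ≤ τ ∧ τ ≤ 1 ∧ u x = τ • α + (1 - τ) • β := by
    intro x hx hxa
    rcases hmem x hx with rfl | rfl | rfl
    · exact ⟨1, zero_le_one, le_rfl, by rw [ua, one_smul, sub_self, zero_smul, add_zero]⟩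
    · exact ⟨0, le_rfl, zero_le_one, by rw [ub, zero_smul, sub_zero, one_smul, zero_add]⟩
    · exact absurd rfl hxa
  have hcr' : crs β α ≠ 0 := by
    rw [crs_comm]
    exact neg_ne_zero.2 hcr
  -- combinations
  have ca : ∀ x' ∈ T, ∀ x'' ∈ T, x' ≠ a → x'' ≠ a → ∀ s l : ℝ, s ≠ 0 →
      s • α ≠ u x' + l • (u x'' - u x') := by
    intro x' hx' x'' hx'' h1 h2 s l hs h
    obtain ⟨τ, hτ⟩ := hua x' hx' h1
    obtain ⟨τ', hτ'⟩ := hua x'' hx'' h2
    rw [hτ, hτ'] at h
    have h3 := congrArg (crs β) h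
    have h4 : crs β (τ • β + l • (τ' • β - τ • β)) = 0 := by
      simp only [crs, Prod.fst_add, Prod.snd_add, Prod.smul_fst, Prod.smul_snd, smul_eq_mul,
        Prod.fst_sub, Prod.snd_sub]
      ring
    rw [h4, crs_smul] at h3
    rcases mul_eq_zero.1 h3 with h5 | h5
    · exact hs h5
    · exact hcr' h5
  have cb : ∀ x' ∈ T, ∀ x'' ∈ T, x' ≠ b → x'' ≠ b → ∀ s l : ℝ, s ≠ 0 →
      s • β ≠ u x' + l • (u x'' - u x') := by
    intro x' hx' x'' hx'' h1 h2 s l hs h
    obtain ⟨τ, hτ⟩ := hub x' hx' h1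
    obtain ⟨τ', hτ'⟩ := hub x'' hx'' h2
    rw [hτ, hτ'] at h
    have h3 := congrArg (crs α) h
    have h4 : crs α (τ • α + l • (τ' • α - τ • α)) = 0 := by
      simp only [crs, Prod.fst_add, Prod.snd_add, Prod.smul_fst, Prod.smul_snd, smul_eq_mul,
        Prod.fst_sub, Prod.snd_sub]
      ring
    rw [h4, crs_smul] at h3
    rcases mul_eq_zero.1 h3 with h5 | h5
    · exact hs h5
    · exact hcr h5
  have cc : ∀ x' ∈ T, ∀ x'' ∈ T, x' ≠ c → x'' ≠ c → ∀ l : ℝ, 0 ≤ l → l ≤ 1 →
      ∃ L : ℝ, 0 ≤ L ∧ L ≤ 1 ∧ u x' + l • (u x'' - u x') = L • α + (1 - L) • β := by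
    intro x' hx' x'' hx'' h1 h2 l hl0 hl1
    obtain ⟨τ, h3, h4, hτ⟩ := huc x' hx' h1
    obtain ⟨τ', h5, h6, hτ'⟩ := huc x'' hx'' h2
    refine ⟨τ + l * (τ' - τ), by nlinarith, by nlinarith, ?_⟩
    rw [hτ, hτ']
    ext <;> simp <;> ring
  refine ⟨u, ua, ub, uc, hu0, blow hP u k hu0 ?_ (three_elim hT) ?_ ?_ ?_ ?_⟩
  · intro x
    simp only [k]
    split_ifs <;> norm_num
  · intro x hx y hy hxy
    rcases hmem x hx with rfl | rfl | rfl
    · rw [ua, ka, one_smul, ha y hy hxy]
    · rw [ub, kb, one_smul, hb y hy hxy]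
    · rw [uc, kc, zero_smul]
  · intro x hx x' hx' x'' hx'' h1 h2 y hy hxy s hs l hl0 hl1
    rcases hmem x hx with rfl | rfl | rfl
    · rw [ha y hy hxy]
      rw [ka] at hs
      exact ca x' hx' x'' hx'' h1 h2 s l (by linarith)
    · rw [hb y hy hxy]
      rw [kb] at hs
      exact cb x' hx' x'' hx'' h1 h2 s l (by linarith)
    · rw [kc] at hs
      obtain ⟨L, hL0, hL1, hL⟩ := cc x' hx' x'' hx'' h1 h2 l hl0 hl1
      rw [hL]
      intro h
      obtain ⟨h3, h4⟩ := (hc y hy hxy).1.2 s L (1 - L) hs hL0 (by linarith) h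
      linarith
  · intro x hx x' hx' x'' hx'' h1 h2 l hl0 hl1
    rcases hmem x hx with rfl | rfl | rfl
    · rw [ua]
      have := ca x' hx' x'' hx'' h1 h2 1 l one_ne_zero
      rwa [one_smul] at this
    · rw [ub]
      have := cb x' hx' x'' hx'' h1 h2 1 l one_ne_zero
      rwa [one_smul] at this
    · obtain ⟨L, hL0, hL1, hL⟩ := cc x' hx' x'' hx'' h1 h2 l hl0 hl1
      rw [hL, uc]
      intro h
      have h3 := congrArg (crs α) h
      have h4 := congrArg (crs β) h
      simp only [crs_add, crs_smul, crs_self, mul_zero, zero_add, add_zero] at h3 h4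
      have h5 : crs α (0 : ℝ × ℝ) = 0 := by simp [crs]
      have h6 : crs β (0 : ℝ × ℝ) = 0 := by simp [crs]
      rw [h5] at h3
      rw [h6] at h4
      have h7 : 1 - L = 0 := by
        rcases mul_eq_zero.1 h3.symm with h | h
        · exact h
        · exact absurd h hcr
      have h8 : L = 0 := by
        rcases mul_eq_zero.1 h4.symm with h | h
        · exact h
        · exact absurd h hcr'
      linarith
  · intro x hx x' hx' hne y hy y' hy' hxy hxy' s s' hs hs' h
    have hn := npp_of_crs hcr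
    rcases hmem x hx with h1 | h1 | h1 <;> rcases hmem x' hx' with h2 | h2 | h2 <;>
      subst x <;> subst x'
    · exact hne rfl
    · rw [ha y hy hxy, hb y' hy' hxy'] at h
      rw [ka] at hs
      rw [kb] at hs'
      have := (hn s s' (by linarith) (by linarith) h).1
      linarith
    · rw [ha y hy hxy] at h
      rw [ka] at hs
      rw [kc] at hs'
      have := ((hc y' hy' hxy').2.1 s s' (by linarith) (by linarith) h).1
      linarith
    · rw [hb y hy hxy, ha y' hy' hxy'] at h
      rw [kb] at hs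
      rw [ka] at hs'
      have := (hn s' s (by linarith) (by linarith) h.symm).1
      linarith
    · exact hne rfl
    · rw [hb y hy hxy] at h
      rw [kb] at hs
      rw [kc] at hs'
      have := ((hc y' hy' hxy').2.2 s s' (by linarith) (by linarith) h).1
      linarith
    · rw [ha y' hy' hxy'] at h
      rw [kc] at hs
      rw [ka] at hs'
      have := ((hc y hy hxy).2.1 s' s (by linarith) (by linarith) h.symm).1
      linarith
    · rw [hb y' hy' hxy'] at h
      rw [kc] at hs
      rw [kb] at hs'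
      have := ((hc y hy hxy).2.2 s' s (by linarith) (by linarith) h.symm).1
      linarith
    · exact hne rfl

theorem opp_case {V : Type*} [Finite V] {G : SimpleGraph V} {T : Set V} {P : V → ℝ × ℝ}
    {t : ℝ × ℝ} (hP : Collapsed G T P t) {a b c : V} {β ν : ℝ × ℝ} {κ : ℝ} (hT : T = {a, b, c})
    (hab : a ≠ b) (hac : a ≠ c) (hbc : b ≠ c) (hκ : 0 < κ)
    (ha : ∀ y, y ∉ T → G.Adj a y → P y - t = (-κ) • β)
    (hb : ∀ y, y ∉ T → G.Adj b y → P y - t = β)
    (hcr : crs β ν ≠ 0) (hc : ∀ y, y ∉ T → ¬ G.Adj c y) :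
    ∃ u : V → ℝ × ℝ, (∀ x, x ∉ T → u x = 0) ∧
      ∀ᶠ ε in 𝓝[>] (0 : ℝ), IsRAC G (fun x => P x + ε • u x) := by
  classical
  let u : V → ℝ × ℝ := fun x => if x = b then β else if x = c then ν else 0
  let k : V → ℝ := fun x => if x = b then 1 else 0
  have ub : u b = β := if_pos rfl
  have ua : u a = 0 := by simp only [u, if_neg hab, if_neg hac]
  have uc : u c = ν := by simp only [u, if_neg hbc.symm, if_true]
  have ka : k a = 0 := if_neg hab
  have kb : k b = 1 := if_pos rfl
  have hmem : ∀ x, x ∈ T → x = a ∨ x = b ∨ x = c := by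
    intro x hx
    rw [hT] at hx
    simpa using hx
  have hu0 : ∀ x, x ∉ T → u x = 0 := by
    intro x hx
    have h1 : x ≠ b := fun h => hx (by rw [hT, h]; simp)
    have h2 : x ≠ c := fun h => hx (by rw [hT, h]; simp)
    simp only [u, if_neg h1, if_neg h2]
  have hub : ∀ x ∈ T, x ≠ b → ∃ τ : ℝ, u x = τ • ν := by
    intro x hx hxa
    rcases hmem x hx with rfl | rfl | rfl
    · exact ⟨0, by rw [ua, zero_smul]⟩
    · exact absurd rfl hxa
    · exact ⟨1, by rw [uc, one_smul]⟩
  have huc : ∀ x ∈ T, x ≠ c → ∃ τ : ℝ, u x = τ • β := by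
    intro x hx hxa
    rcases hmem x hx with rfl | rfl | rfl
    · exact ⟨0, by rw [ua, zero_smul]⟩
    · exact ⟨1, by rw [ub, one_smul]⟩
    · exact absurd rfl hxa
  have hua : ∀ x ∈ T, x ≠ a → ∃ τ : ℝ, u x = τ • β + (1 - τ) • ν := by
    intro x hx hxa
    rcases hmem x hx with rfl | rfl | rfl
    · exact absurd rfl hxa
    · exact ⟨1, by rw [ub, one_smul, sub_self, zero_smul, add_zero]⟩
    · exact ⟨0, by rw [uc, zero_smul, sub_zero, one_smul, zero_add]⟩
  have hcr' : crs ν β ≠ 0 := by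
    rw [crs_comm]
    exact neg_ne_zero.2 hcr
  have hβ : β ≠ 0 := by
    rintro rfl
    exact hcr (by simp [crs])
  have cb : ∀ x' ∈ T, ∀ x'' ∈ T, x' ≠ b → x'' ≠ b → ∀ s l : ℝ, s ≠ 0 →
      s • β ≠ u x' + l • (u x'' - u x') := by
    intro x' hx' x'' hx'' h1 h2 s l hs h
    obtain ⟨τ, hτ⟩ := hub x' hx' h1
    obtain ⟨τ', hτ'⟩ := hub x'' hx'' h2
    rw [hτ, hτ'] at h
    have h3 := congrArg (crs ν) h
    have h4 : crs ν (τ • ν + l • (τ' • ν - τ • ν)) = 0 := by
      simp only [crs, Prod.fst_add, Prod.snd_add, Prod.smul_fst, Prod.smul_snd, smul_eq_mul,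
        Prod.fst_sub, Prod.snd_sub]
      ring
    rw [h4, crs_smul] at h3
    rcases mul_eq_zero.1 h3 with h5 | h5
    · exact hs h5
    · exact hcr' h5
  have cc : ∀ x' ∈ T, ∀ x'' ∈ T, x' ≠ c → x'' ≠ c → ∀ l : ℝ,
      ν ≠ u x' + l • (u x'' - u x') := by
    intro x' hx' x'' hx'' h1 h2 l h
    obtain ⟨τ, hτ⟩ := huc x' hx' h1
    obtain ⟨τ', hτ'⟩ := huc x'' hx'' h2
    rw [hτ, hτ'] at h
    have h3 := congrArg (crs β) h
    have h4 : crs β (τ • β + l • (τ' • β - τ • β)) = 0 := by
      simp only [crs, Prod.fst_add, Prod.snd_add, Prod.smul_fst, Prod.smul_snd, smul_eq_mul,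
        Prod.fst_sub, Prod.snd_sub]
      ring
    rw [h4] at h3
    exact hcr h3
  have ca : ∀ x' ∈ T, ∀ x'' ∈ T, x' ≠ a → x'' ≠ a → ∀ s l : ℝ, 0 ≤ s →
      s • ((-κ) • β) ≠ u x' + l • (u x'' - u x') := by
    intro x' hx' x'' hx'' h1 h2 s l hs h
    obtain ⟨τ, hτ⟩ := hua x' hx' h1
    obtain ⟨τ', hτ'⟩ := hua x'' hx'' h2
    rw [hτ, hτ'] at h
    have h3 := congrArg (crs β) h
    have h4 : crs β (τ • β + (1 - τ) • ν + l • (τ' • β + (1 - τ') • ν - (τ • β + (1 - τ) • ν))) =
        (1 - (τ + l * (τ' - τ))) * crs β ν := by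
      simp only [crs, Prod.fst_add, Prod.snd_add, Prod.smul_fst, Prod.smul_snd, smul_eq_mul,
        Prod.fst_sub, Prod.snd_sub]
      ring
    rw [h4, crs_smul, crs_smul, crs_self, mul_zero, mul_zero] at h3
    have h5 : 1 - (τ + l * (τ' - τ)) = 0 := by
      rcases mul_eq_zero.1 h3.symm with h5 | h5
      · exact h5
      · exact absurd h5 hcr
    have h6 : (τ • β + (1 - τ) • ν + l • (τ' • β + (1 - τ') • ν - (τ • β + (1 - τ) • ν))) =
        (τ + l * (τ' - τ)) • β + (1 - (τ + l * (τ' - τ))) • ν := by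
      ext <;> simp <;> ring
    rw [h6, h5, zero_smul, add_zero] at h
    have h7 : (1 + s * κ) • β = 0 := by
      have h8 : τ + l * (τ' - τ) = 1 := by linarith
      rw [h8, one_smul, smul_smul] at h
      rw [add_smul, one_smul]
      nth_rewrite 1 [← h]
      rw [← add_smul]
      have : s * -κ + s * κ = 0 := by ring
      rw [this, zero_smul]
    rcases smul_eq_zero.1 h7 with h8 | h8
    · have : 0 ≤ s * κ := by positivity
      linarith
    · exact hβ h8
  refine ⟨u, hu0, blow hP u k hu0 ?_ (three_elim hT) ?_ ?_ ?_ ?_⟩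
  · intro x
    simp only [k]
    split_ifs <;> norm_num
  · intro x hx y hy hxy
    rcases hmem x hx with rfl | rfl | rfl
    · rw [ua, ka, zero_smul]
    · rw [ub, kb, one_smul, hb y hy hxy]
    · exact absurd hxy (hc y hy)
  · intro x hx x' hx' x'' hx'' h1 h2 y hy hxy s hs l hl0 hl1
    rcases hmem x hx with rfl | rfl | rfl
    · rw [ha y hy hxy]
      rw [ka] at hs
      exact ca x' hx' x'' hx'' h1 h2 s l hs
    · rw [hb y hy hxy]
      rw [kb] at hs
      exact cb x' hx' x'' hx'' h1 h2 s l (by linarith)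
    · exact absurd hxy (hc y hy)
  · intro x hx x' hx' x'' hx'' h1 h2 l hl0 hl1
    rcases hmem x hx with rfl | rfl | rfl
    · rw [ua]
      have := ca x' hx' x'' hx'' h1 h2 0 l le_rfl
      rwa [zero_smul] at this
    · rw [ub]
      have := cb x' hx' x'' hx'' h1 h2 1 l one_ne_zero
      rwa [one_smul] at this
    · rw [uc]
      exact cc x' hx' x'' hx'' h1 h2 l
  · intro x hx x' hx' hne y hy y' hy' hxy hxy' s s' hs hs' h
    have aux : ∀ s s' : ℝ, 0 ≤ s → 1 ≤ s' → s • ((-κ) • β) ≠ s' • β := by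
      intro s s' hs hs' h
      have h7 : (s' + s * κ) • β = 0 := by
        rw [add_smul, ← h, smul_smul, ← add_smul]
        have : s * -κ + s * κ = 0 := by ring
        rw [this, zero_smul]
      rcases smul_eq_zero.1 h7 with h8 | h8
      · have : 0 ≤ s * κ := by positivity
        linarith
      · exact hβ h8
    rcases hmem x hx with h1 | h1 | h1 <;> rcases hmem x' hx' with h2 | h2 | h2 <;>
      subst x <;> subst x'
    · exact hne rfl
    · rw [ha y hy hxy, hb y' hy' hxy'] at h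
      rw [ka] at hs
      rw [kb] at hs'
      exact aux s s' hs hs' h
    · exact hc y' hy' hxy'
    · rw [hb y hy hxy, ha y' hy' hxy'] at h
      rw [kb] at hs
      rw [ka] at hs'
      exact aux s' s hs' hs h.symm
    · exact hne rfl
    · exact hc y' hy' hxy'
    · exact hc y hy hxy
    · exact hc y hy hxy
    · exact hne rfl

theorem triangle_step {V : Type*} [Finite V] {G : SimpleGraph V} {T : Set V} {P : V → ℝ × ℝ}
    {t : ℝ × ℝ} (hP : Collapsed G T P t) {a b c : V} (hT : T = {a, b, c}) (hab : a ≠ b)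
    (hac : a ≠ c) (hbc : b ≠ c)
    (h1 : ∀ x ∈ T, ∀ y, y ∉ T → ∀ y', y' ∉ T → G.Adj x y → G.Adj x y' → y = y')
    (h2 : ∀ x ∈ T, ∀ x' ∈ T, ∀ y, y ∉ T → G.Adj x y → G.Adj x' y → x = x')
    {a' b' : V} (ha' : a' ∉ T) (hb' : b' ∉ T) (haa : G.Adj a a') (hbb : G.Adj b b') :
    (∃ Q, IsRAC G Q) ∧ ∀ r d, (r ∈ T → ∀ y, y ∉ T → ¬ G.Adj r y) →
      (∀ v, P v ≠ P r → dot d (P r) < dot d (P v)) → ∃ Q, IsRAC G Q ∧ ExpD d Q r := by
  classical
  have haT : a ∈ T := by rw [hT]; simp
  have hbT : b ∈ T := by rw [hT]; simp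
  have hcT : c ∈ T := by rw [hT]; simp
  have hmem : ∀ x, x ∈ T → x = a ∨ x = b ∨ x = c := by
    intro x hx
    rw [hT] at hx
    simpa using hx
  have haO : ∀ y, y ∉ T → G.Adj a y → P y - t = P a' - t := by
    intro y hy h
    rw [h1 a haT y hy a' ha' h haa]
  have hbO : ∀ y, y ∉ T → G.Adj b y → P y - t = P b' - t := by
    intro y hy h
    rw [h1 b hbT y hy b' hb' h hbb]
  have hα : P a' - t ≠ 0 := sub_ne_zero.2 (hP.notT a' ha')
  have hβ : P b' - t ≠ 0 := sub_ne_zero.2 (hP.notT b' hb')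
  have hab' : a' ≠ b' := by
    intro h
    rw [← h] at hbb
    exact hab (h2 a haT b hbT a' ha' haa hbb)
  have hαβ : NPP (P a' - t) (P b' - t) := hP.npp haT hbT ha' hb' haa hbb hab'
  have key : ∃ u : V → ℝ × ℝ, (∀ x, x ∉ T → u x = 0) ∧
      (∀ᶠ ε in 𝓝[>] (0 : ℝ), IsRAC G (fun x => P x + ε • u x)) ∧
      ∀ r d, r ∈ T → (∀ y, y ∉ T → ¬ G.Adj r y) →
        (∀ v, P v ≠ P r → dot d (P r) < dot d (P v)) → u r = 0 ∧
        ∀ v ∈ T, v ≠ r → 0 < dot d (u v) := by
    by_cases hc : ∃ c', c' ∉ T ∧ G.Adj c c'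
    · obtain ⟨c', hc', hcc⟩ := hc
      have hcO : ∀ y, y ∉ T → G.Adj c y → P y - t = P c' - t := by
        intro y hy h
        rw [h1 c hcT y hy c' hc' h hcc]
      have hγ : P c' - t ≠ 0 := sub_ne_zero.2 (hP.notT c' hc')
      have hac' : a' ≠ c' := by
        intro h
        rw [← h] at hcc
        exact hac (h2 a haT c hcT a' ha' haa hcc)
      have hbc' : b' ≠ c' := by
        intro h
        rw [← h] at hcc
        exact hbc (h2 b hbT c hcT b' hb' hbb hcc)
      have hαγ : NPP (P a' - t) (P c' - t) := hP.npp haT hcT ha' hc' haa hcc hac'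
      have hβγ : NPP (P b' - t) (P c' - t) := hP.npp hbT hcT hb' hc' hbb hcc hbc'
      have hno : ∀ r, r ∈ T → (∀ y, y ∉ T → ¬ G.Adj r y) → False := by
        intro r hr h
        rcases hmem r hr with rfl | rfl | rfl
        · exact h a' ha' haa
        · exact h b' hb' hbb
        · exact h c' hc' hcc
      rcases exists_good hα hβ hγ hαβ hαγ hβγ with h | h | h
      · obtain ⟨u, -, -, -, hu, hR⟩ := pair_case hP hT hab hac hbc haO hbO h.1 (by
          intro y hy hcy
          rw [hcO y hy hcy]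
          exact ⟨h, hαγ, hβγ⟩)
        exact ⟨u, hu, hR, fun r d hr hr' => (hno r hr hr').elim⟩
      · obtain ⟨u, -, -, -, hu, hR⟩ := pair_case hP (a := a) (b := c) (c := b)
          (by rw [hT]; ext x; simp only [Set.mem_insert_iff, Set.mem_singleton_iff]; tauto)
          hac hab hbc.symm haO hcO h.1 (by
          intro y hy hcy
          rw [hbO y hy hcy]
          exact ⟨h, hαβ, hβγ.symm⟩)
        exact ⟨u, hu, hR, fun r d hr hr' => (hno r hr hr').elim⟩
      · obtain ⟨u, -, -, -, hu, hR⟩ := pair_case hP (a := b) (b := c) (c := a)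
          (by rw [hT]; ext x; simp only [Set.mem_insert_iff, Set.mem_singleton_iff]; tauto)
          hbc hab.symm hac.symm hbO hcO h.1 (by
          intro y hy hcy
          rw [haO y hy hcy]
          exact ⟨h, hαβ.symm, hαγ.symm⟩)
        exact ⟨u, hu, hR, fun r d hr hr' => (hno r hr hr').elim⟩
    · push Not at hc
      have hr_c : ∀ r, r ∈ T → (∀ y, y ∉ T → ¬ G.Adj r y) → r = c := by
        intro r hr h
        rcases hmem r hr with rfl | rfl | rfl
        · exact absurd haa (h a' ha')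
        · exact absurd hbb (h b' hb')
        · rfl
      have hpos : ∀ d : ℝ × ℝ, (∀ v, P v ≠ P c → dot d (P c) < dot d (P v)) →
          0 < dot d (P a' - t) ∧ 0 < dot d (P b' - t) := by
        intro d hd
        have h3 := hd a' (by rw [hP.inT c hcT]; exact hP.notT a' ha')
        have h4 := hd b' (by rw [hP.inT c hcT]; exact hP.notT b' hb')
        rw [hP.inT c hcT] at h3 h4
        rw [dot_sub, dot_sub]
        constructor <;> linarith
      by_cases hcr : crs (P a' - t) (P b' - t) = 0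
      · obtain ⟨κ, hκ, hopp⟩ := opposite hα hβ hαβ hcr
        have hν : crs (P b' - t) (-(P b' - t).2, (P b' - t).1) ≠ 0 := by
          have : crs (P b' - t) (-(P b' - t).2, (P b' - t).1) = dot (P b' - t) (P b' - t) := by
            simp only [crs, dot]
            ring
          rw [this]
          exact (dot_self_pos hβ).ne'
        obtain ⟨u, hu, hR⟩ := opp_case hP hT hab hac hbc hκ
          (fun y hy h => (haO y hy h).trans hopp) hbO hν (fun y hy => hc y hy)
        refine ⟨u, hu, hR, ?_⟩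
        intro r d hr hr' hexp
        have h3 := hr_c r hr hr'
        rw [h3] at hexp
        obtain ⟨h4, h5⟩ := hpos d hexp
        rw [hopp, dot_smul] at h4
        nlinarith
      · obtain ⟨u, ua, ub, uc, hu, hR⟩ := pair_case hP hT hab hac hbc haO hbO hcr (by
          intro y hy hcy
          exact absurd hcy (hc y hy))
        refine ⟨u, hu, hR, ?_⟩
        intro r d hr hr' hexp
        have h3 := hr_c r hr hr'
        rw [h3] at hexp ⊢
        obtain ⟨h4, h5⟩ := hpos d hexp
        refine ⟨uc, fun v hv hvr => ?_⟩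
        rcases hmem v hv with rfl | rfl | rfl
        · rw [ua]
          exact h4
        · rw [ub]
          exact h5
        · exact absurd rfl hvr
  obtain ⟨u, hu, hR, hE⟩ := key
  constructor
  · obtain ⟨ε, hε⟩ := hR.exists
    exact ⟨_, hε⟩
  · intro r d hr hexp
    by_cases hrT : r ∈ T
    · obtain ⟨h3, h4⟩ := hE r d hrT (hr hrT) hexp
      obtain ⟨ε, hε, hε0⟩ := (hR.and self_mem_nhdsWithin).exists
      have hε0' : 0 < ε := hε0
      refine ⟨_, hε, ?_⟩
      intro v hv
      simp only [h3, smul_zero, add_zero]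
      by_cases hvT : v ∈ T
      · rw [dot_add, dot_smul, hP.inT r hrT, hP.inT v hvT]
        have := mul_pos hε0' (h4 v hvT hv)
        linarith
      · rw [hu v hvT, smul_zero, add_zero]
        apply hexp
        rw [hP.inT r hrT]
        exact hP.notT v hvT
    · have h3 : ∀ v, v ≠ r → dot d (P r) < dot d (P v) := by
        intro v hv
        apply hexp
        intro h
        exact hv (hP.inj r v h.symm hrT).symm
      obtain ⟨ε, hε, hε0⟩ := (hR.and (exp_small h3)).exists
      exact ⟨_, hε, hε0⟩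

end Pool.Agent.Lib.MP_a17342_co.Red
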